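import Pool.Agent.Lib.MP_b9add9_lc.Alg2.World

/-!
# The machines of the world with hidden certificates: statements

A block `v` (a string) has the rows `y` with the bits `j ≤ J v`; the name of the bit is `rs J v y j`.
The machine `fc false false k` moves the bits of its second input with marks on its first input,
which gives a string `e`, and checks that `e = tp y (false :: v)` and that all bits of the row `y`
of the block `v` are `1`. The machines `fc true r k` first pad their input `1^a 0 q` to the name
`v = vn L a q` of a statement and push a separator. Then `fc true false k` goes on as above, and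
`fc true true k` obtains the string `y` from the second component of the oracle and then makes the
same check for this row. The number `k` is the depth of the oracle `Q` inside the oracle of the
machine.
-/

namespace ESY.Alg3

open ESY ESY.Conv ESY.Alg2

/-- the number `j` in unary, padded to length `J` -/
def un (j J : ℕ) : List Bool := List.replicate j true ++ List.replicate (J - j) false

/-- the name of the bit `j` of the row `y` of the block `v` -/
def rs (J : List Bool → ℕ) (v y : List Bool) (j : ℕ) : List Bool :=
  true :: true :: true :: tp (un j (J v)) (false :: tp y (false :: v))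

/-- all bits of the row `y` of the block `v` are `1` -/
def AllOnes (J : List Bool → ℕ) (Q : Oracle) (v y : List Bool) : Prop :=
  ∀ j ≤ J v, Q (rs J v y j) = true

/-- the name of the statement with index `a` for the input `q` -/
def vn (L : ℕ → List Bool → ℕ) (a : ℕ) (q : List Bool) : List Bool :=
  true :: (List.replicate (L a q) true ++ false :: (List.replicate a true ++ false :: q))

/-- `Q` knows when the padding is complete -/
def Flag0 (L : ℕ → List Bool → ℕ) (Q : Oracle) : Prop := ∀ (i a : ℕ) (q : List Bool),
  Q (true :: false :: false :: (List.replicate i true ++
    false :: (List.replicate a true ++ false :: q))) = decide (L a q ≤ i)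

/-- `Q` knows when a row name is complete -/
def Flag1 (N : List Bool → ℕ) (Q : Oracle) : Prop := ∀ y v : List Bool,
  Q (true :: true :: false :: tp y (false :: v)) = decide (N v ≤ y.length)

/-- `Q` knows when a bit name is complete -/
def Flag2 (J : List Bool → ℕ) (Q : Oracle) : Prop := ∀ (i : ℕ) (e : List Bool),
  Q (true :: false :: true :: tp (List.replicate i false) (false :: e)) = true ↔
    ∃ y v : List Bool, e = tp y (false :: v) ∧ J v ≤ i

/-- the bits obtained from `S` (the last one first) -/
def hs (S : Oracle) (v : List Bool) : ℕ → List Bool
  | 0 => []
  | i + 1 => S (tp (hs S v i) (false :: v)) :: hs S v i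

/-- choose by `k` -/
def pe {α : Type} (k : Fin 3) (a b c : α) : α := if k = 2 then a else if k = 1 then b else c

/-- the code: `p = true` starts with the padding loop; `r = true` has the loop that asks the second
component of the oracle, `r = false` the loop that moves the second input -/
def fcCode (p r : Bool) (k : Fin 3) : Fin 89 → Instr 2 89 := ![
    (if p = true then .push 0 false 70 else .pop 1 24 66 67),  -- 0
    .push 0 false 2,        -- 1   question: is the row name complete?
    .push 0 true 3,         -- 2
    .push 0 true (pe k 4 5 6), -- 3
    .push 0 false 5,        -- 4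
    .push 0 false 6,        -- 5
    .query 0 (pe k 7 8 9) (pe k 19 20 21), -- 6
    .pop 0 8 8 8,           -- 7   no
    .pop 0 9 9 9,           -- 8
    .pop 0 10 10 10,        -- 9
    .pop 0 11 11 11,        -- 10
    .pop 0 12 12 12,        -- 11
    .push 0 true 13,        -- 12  ask the second component
    .query 0 14 16,         -- 13
    .pop 0 15 15 15,        -- 14  answer no
    .push 0 false 18,       -- 15
    .pop 0 17 17 17,        -- 16  answer yes
    .push 0 true 18,        -- 17
    .push 0 true 1,         -- 18
    .pop 0 20 20 20,        -- 19  the row name is complete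
    .pop 0 21 21 21,        -- 20
    .pop 0 22 22 22,        -- 21
    .pop 0 23 23 23,        -- 22
    .pop 0 24 24 24,        -- 23
    .push 0 false 25,       -- 24  separator
    .push 0 true 26,        -- 25  question: is the bit name complete?
    .push 0 false 27,       -- 26
    .push 0 true (pe k 28 29 30), -- 27
    .push 0 false 29,       -- 28
    .push 0 false 30,       -- 29
    .query 0 (pe k 31 32 33) (pe k 38 39 40), -- 30
    .pop 0 32 32 32,        -- 31  no
    .pop 0 33 33 33,        -- 32
    .pop 0 34 34 34,        -- 33
    .pop 0 35 35 35,        -- 34
    .pop 0 36 36 36,        -- 35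
    .push 0 false 37,       -- 36
    .push 0 true 25,        -- 37
    .pop 0 39 39 39,        -- 38  the bit name is complete
    .pop 0 40 40 40,        -- 39
    .pop 0 41 41 41,        -- 40
    .pop 0 42 42 42,        -- 41
    .pop 0 43 43 43,        -- 42
    .push 0 true 44,        -- 43  ask for the bit
    .push 0 true 45,        -- 44
    .push 0 true (pe k 46 47 48), -- 45
    .push 0 false 47,       -- 46
    .push 0 false 48,       -- 47
    .query 0 49 (pe k 50 51 52), -- 48
    .halt false,            -- 49
    .pop 0 51 51 51,        -- 50  the bit is 1
    .pop 0 52 52 52,        -- 51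
    .pop 0 53 53 53,        -- 52
    .pop 0 54 54 54,        -- 53
    .pop 0 55 55 55,        -- 54
    .pop 0 49 62 56,        -- 55  next bit name: remove a mark
    .pop 0 49 57 60,        -- 56  remove a bit
    .push 0 true 58,        -- 57  the first 0 becomes 1
    .push 0 true 59,        -- 58
    .pop 1 43 61 61,        -- 59  put the other ones back
    .push 1 true 55,        -- 60
    .push 0 true 63,        -- 61
    .halt true,             -- 62
    .push 0 true 59,        -- 63
    .halt false,            -- 64
    .halt false,            -- 65
    .push 0 false 68,       -- 66  the loop that moves the second input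
    .push 0 true 68,        -- 67
    .push 0 true 69,        -- 68
    .pop 1 24 66 67,        -- 69
    .push 0 false 71,       -- 70  the padding loop; question: is the padding complete?
    .push 0 false 72,       -- 71
    .push 0 true (pe k 73 74 75), -- 72
    .push 0 false 74,       -- 73
    .push 0 false 75,       -- 74
    .query 0 (pe k 76 77 78) (pe k 82 83 84), -- 75
    .pop 0 77 77 77,        -- 76  no
    .pop 0 78 78 78,        -- 77
    .pop 0 79 79 79,        -- 78
    .pop 0 80 80 80,        -- 79
    .pop 0 81 81 81,        -- 80
    .push 0 true 70,        -- 81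
    .pop 0 83 83 83,        -- 82  the padding is complete
    .pop 0 84 84 84,        -- 83
    .pop 0 85 85 85,        -- 84
    .pop 0 86 86 86,        -- 85
    .pop 0 87 87 87,        -- 86
    .push 0 true 88,        -- 87
    .push 0 false (if r = true then 1 else 69)] -- 88

/-- the machines -/
def fc (p r : Bool) (k : Fin 3) : Machine := mk2 (fcCode p r k)

/-- **The verifier.** (`O` contains `Q` at depth `k`.) -/
def SpecVM : Prop := ∀ (J : List Bool → ℕ) (k : Fin 3) (O Q : Oracle),
  (∀ s, O (List.replicate k.val false ++ s) = Q s) → Flag2 J Q → ∀ x w : List Bool,
    (∀ T, AcceptsIn O (fc false false k) x w T → ∃ y v : List Bool,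
      app w x = tp y (false :: v) ∧ AllOnes J Q v y) ∧
    (∀ y v : List Bool, app w x = tp y (false :: v) → AllOnes J Q v y →
      ∀ T, 4 * w.length + 40 * (J v + 2) ^ 2 ≤ T → AcceptsIn O (fc false false k) x w T)

/-- **The verifier with padding.** -/
def SpecPM : Prop := ∀ (L : ℕ → List Bool → ℕ) (J : List Bool → ℕ) (k : Fin 3) (O Q : Oracle),
  (∀ s, O (List.replicate k.val false ++ s) = Q s) → Flag0 L Q → Flag2 J Q →
    ∀ (a : ℕ) (q w : List Bool),
    (∀ T, AcceptsIn O (fc true false k) (List.replicate a true ++ false :: q) w T →
      AllOnes J Q (vn L a q) w.reverse) ∧
    (AllOnes J Q (vn L a q) w.reverse →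
      ∀ T, 4 * w.length + 40 * (L a q + J (vn L a q) + 2) ^ 2 ≤ T →
        AcceptsIn O (fc true false k) (List.replicate a true ++ false :: q) w T)

/-- **The reduction.** -/
def SpecRED : Prop := ∀ (L : ℕ → List Bool → ℕ) (N J : List Bool → ℕ) (k : Fin 3)
  (O Q S : Oracle), (∀ s, O (List.replicate k.val false ++ s) = Q s) →
    (∀ s, O (true :: s) = S s) → Flag0 L Q → Flag1 N Q → Flag2 J Q →
      ∀ (a : ℕ) (q : List Bool) (T : ℕ),
        40 * (L a q + N (vn L a q) + J (vn L a q) + 2) ^ 2 ≤ T →
        (AcceptsIn O (fc true true k) (List.replicate a true ++ false :: q) [] T ↔
          AllOnes J Q (vn L a q) (hs S (vn L a q) (N (vn L a q))))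

end ESY.Alg3
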