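import Pool.Agent.Lib.MP_80aaf5_lc.Alg3.Mch

/-!
# The machines of the world with hidden certificates: proofs
-/

namespace ESY.Alg3

open ESY ESY.Conv ESY.Alg2

set_option maxRecDepth 4000

namespace MchM

variable {O Q S : Oracle}

/-- reachability with a number of steps between `a` and `b` -/
def Go (O : Oracle) {M : Machine} (a b : ℕ) (c c' : Cfg M) : Prop :=
  ∃ t, a ≤ t ∧ t ≤ b ∧ (step O M)^[t] c = c'

theorem Go.trans {M : Machine} {a b a' b' : ℕ} {c c' c'' : Cfg M} (h : Go O a b c c')
    (h' : Go O a' b' c' c'') : Go O (a + a') (b + b') c c'' := by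
  obtain ⟨t, h1, h2, h3⟩ := h
  obtain ⟨t', h1', h2', h3'⟩ := h'
  refine ⟨t + t', by omega, by omega, ?_⟩
  rw [Nat.add_comm, Function.iterate_add_apply, h3, h3']

theorem Go.mono {M : Machine} {a b a' b' : ℕ} {c c' : Cfg M} (h : Go O a b c c') (h1 : a' ≤ a)
    (h2 : b ≤ b') : Go O a' b' c c' := by
  obtain ⟨t, h3, h4, h5⟩ := h
  exact ⟨t, by omega, by omega, h5⟩

theorem Go.refl {M : Machine} (c : Cfg M) : Go O 0 0 c c := ⟨0, le_rfl, le_rfl, rfl⟩

theorem Go.one {M : Machine} {c c' : Cfg M} (h : step O M c = c') : Go O 1 1 c c' :=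
  ⟨1, le_rfl, le_rfl, h⟩

/-! ### acceptance -/

theorem acc {M : Machine} {x w : List Bool} {a b : ℕ} {c : Cfg M}
    (h : Go O a b (start M x w) c) (hc : M.code c.state = .halt true) {T : ℕ} (hT : b ≤ T) :
    AcceptsIn O M x w T := by
  obtain ⟨t, -, h2, h3⟩ := h
  refine accepts_mono O M x w (h2.trans hT) ?_
  unfold AcceptsIn
  rw [h3]
  exact hc

theorem stay' {M : Machine} {c : Cfg M} {b : Bool} (hc : M.code c.state = .halt b) (t : ℕ) :
    (step O M)^[t] c = c := by
  induction t with
  | zero => rfl
  | succ t ih =>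
    rw [Function.iterate_succ_apply', ih]
    exact step_halt hc

theorem not_acc {M : Machine} {x w : List Bool} {a b : ℕ} {c : Cfg M}
    (h : Go O a b (start M x w) c) (hc : M.code c.state = .halt false) (T : ℕ) :
    ¬ AcceptsIn O M x w T := by
  intro hT
  obtain ⟨t, -, -, h3⟩ := h
  have h4 := accepts_mono O M x w (Nat.le_add_right T t) hT
  unfold AcceptsIn at h4
  rw [Function.iterate_add_apply, h3, stay' hc, hc] at h4
  exact absurd (Instr.halt.inj h4) (by decide)

theorem not_acc_loop {M : Machine} {x w : List Bool}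
    (h : ∀ i, ∃ (b : ℕ) (c : Cfg M), Go O i b (start M x w) c ∧ M.code c.state ≠ .halt true)
    (T : ℕ) : ¬ AcceptsIn O M x w T := by
  intro hT
  obtain ⟨b, c, ⟨t, h1, -, h3⟩, h4⟩ := h T
  have h5 := accepts_mono O M x w h1 hT
  unfold AcceptsIn at h5
  rw [h3] at h5
  exact h4 h5

/-! ### single steps -/

section

variable {q : ℕ} {code : Fin (q + 1) → Instr 2 (q + 1)} {s t t' t'' : Fin (q + 1)} {b : Bool}

theorem push (h : code s = .push 0 b t) (a c : List Bool) :
    Go O 1 1 (Conv.cf code s a c) (Conv.cf code t (b :: a) c) := Go.one (push0 h a c).1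

theorem push' (h : code s = .push 1 b t) (a c : List Bool) :
    Go O 1 1 (Conv.cf code s a c) (Conv.cf code t a (b :: c)) := Go.one (push1 h a c).1

theorem pop (h : code s = .pop 0 t t t) (b : Bool) (a c : List Bool) :
    Go O 1 1 (Conv.cf code s (b :: a) c) (Conv.cf code t a c) := Go.one (pop0 h b a c).1

theorem popf (h : code s = .pop 0 t t' t'') (a c : List Bool) :
    Go O 1 1 (Conv.cf code s (false :: a) c) (Conv.cf code t' a c) :=
  Go.one ((step_pop_false (c := Conv.cf code s (false :: a) c) h rfl).trans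
    (congrArg (Cfg.mk (M := mk2 code) t') (u0 _ c a)))

theorem popt (h : code s = .pop 0 t t' t'') (a c : List Bool) :
    Go O 1 1 (Conv.cf code s (true :: a) c) (Conv.cf code t'' a c) :=
  Go.one ((step_pop_true (c := Conv.cf code s (true :: a) c) h rfl).trans
    (congrArg (Cfg.mk (M := mk2 code) t'') (u0 _ c a)))

theorem popn' (h : code s = .pop 1 t t' t'') (a : List Bool) :
    Go O 1 1 (Conv.cf code s a []) (Conv.cf code t a []) := Go.one (pop1_nil h a).1

theorem popf' (h : code s = .pop 1 t t' t'') (a c : List Bool) :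
    Go O 1 1 (Conv.cf code s a (false :: c)) (Conv.cf code t' a c) := Go.one (pop1_false h a c).1

theorem popt' (h : code s = .pop 1 t t' t'') (a c : List Bool) :
    Go O 1 1 (Conv.cf code s a (true :: c)) (Conv.cf code t'' a c) := Go.one (pop1_true h a c).1

theorem yes (h : code s = .query 0 t t') (a c : List Bool) (hO : O a = true) :
    Go O 1 1 (Conv.cf code s a c) (Conv.cf code t' a c) := Go.one (step_query_yes (c := Conv.cf code s a c) h hO)

theorem no (h : code s = .query 0 t t') (a c : List Bool) (hO : O a = false) :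
    Go O 1 1 (Conv.cf code s a c) (Conv.cf code t a c) := Go.one (step_query_no (c := Conv.cf code s a c) h hO)

/-! ### questions to `Q` -/

theorem put (k : Fin 3) {a b c : Fin (q + 1)} (h1 : code a = .push 0 false b)
    (h2 : code b = .push 0 false c) (s x : List Bool) :
    Go O 0 2 (Conv.cf code (pe k a b c) s x) (Conv.cf code c (List.replicate k.val false ++ s) x) := by
  match k with
  | 0 => exact (Go.refl _).mono le_rfl (by norm_num)
  | 1 => exact (push h2 s x).mono (by norm_num) (by norm_num)
  | 2 => exact ((push h1 s x).trans (push h2 _ x)).mono (by norm_num) le_rfl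

theorem rem (k : Fin 3) {a b c : Fin (q + 1)} (h1 : code a = .pop 0 b b b)
    (h2 : code b = .pop 0 c c c) (s x : List Bool) :
    Go O 0 2 (Conv.cf code (pe k a b c) (List.replicate k.val false ++ s) x) (Conv.cf code c s x) := by
  match k with
  | 0 => exact (Go.refl _).mono le_rfl (by norm_num)
  | 1 => exact (pop h2 false s x).mono (by norm_num) (by norm_num)
  | 2 => exact ((pop h1 false _ x).trans (pop h2 false s x)).mono (by norm_num) le_rfl

variable {k : Fin 3} {s1 s2 s3 u1 u2 u3 n y v1 v2 v3 d1 d2 d3 : Fin (q + 1)} {b1 b2 b3 : Bool}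

theorem ask_yes (hO : ∀ s, O (List.replicate k.val false ++ s) = Q s)
    (h1 : code s1 = .push 0 b1 s2) (h2 : code s2 = .push 0 b2 s3)
    (h3 : code s3 = .push 0 b3 (pe k u1 u2 u3)) (h4 : code u1 = .push 0 false u2)
    (h5 : code u2 = .push 0 false u3) (h6 : code u3 = .query 0 n y) (e x : List Bool)
    (hQ : Q (b3 :: b2 :: b1 :: e) = true) :
    Go O 1 6 (Conv.cf code s1 e x)
      (Conv.cf code y (List.replicate k.val false ++ b3 :: b2 :: b1 :: e) x) :=
  (((((push h1 e x).trans (push h2 _ x)).trans (push h3 _ x)).trans (put k h4 h5 _ x)).trans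
    (yes h6 _ x ((hO _).trans hQ))).mono (by norm_num) (by norm_num)

theorem ask_no (hO : ∀ s, O (List.replicate k.val false ++ s) = Q s)
    (h1 : code s1 = .push 0 b1 s2) (h2 : code s2 = .push 0 b2 s3)
    (h3 : code s3 = .push 0 b3 (pe k u1 u2 u3)) (h4 : code u1 = .push 0 false u2)
    (h5 : code u2 = .push 0 false u3) (h6 : code u3 = .query 0 n y) (e x : List Bool)
    (hQ : Q (b3 :: b2 :: b1 :: e) = false) :
    Go O 1 6 (Conv.cf code s1 e x)
      (Conv.cf code n (List.replicate k.val false ++ b3 :: b2 :: b1 :: e) x) :=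
  (((((push h1 e x).trans (push h2 _ x)).trans (push h3 _ x)).trans (put k h4 h5 _ x)).trans
    (no h6 _ x ((hO _).trans hQ))).mono (by norm_num) (by norm_num)

theorem back (h1 : code v1 = .pop 0 v2 v2 v2) (h2 : code v2 = .pop 0 v3 v3 v3)
    (h3 : code v3 = .pop 0 d1 d1 d1) (h4 : code d1 = .pop 0 d2 d2 d2)
    (h5 : code d2 = .pop 0 d3 d3 d3) (b1 b2 b3 : Bool) (e x : List Bool) :
    Go O 0 5 (Conv.cf code (pe k v1 v2 v3) (List.replicate k.val false ++ b3 :: b2 :: b1 :: e) x)
      (Conv.cf code d3 e x) :=
  ((((rem k h1 h2 _ x).trans (pop h3 b3 _ x)).trans (pop h4 b2 _ x)).trans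
    (pop h5 b1 e x)).mono (by norm_num) (by norm_num)

end

/-! ### lists -/

theorem rep_cons (j : ℕ) (b : Bool) (x : List Bool) :
    List.replicate j b ++ b :: x = List.replicate (j + 1) b ++ x := by
  induction j with
  | zero => rfl
  | succ j ih => exact congrArg (List.cons b) ih

theorem tp_rep_cons (j : ℕ) (b : Bool) (x : List Bool) :
    tp (List.replicate j b) (true :: b :: x) = tp (List.replicate (j + 1) b) x := by
  induction j with
  | zero => rfl
  | succ j ih => exact congrArg (fun l => true :: b :: l) ih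

theorem tp_app (h h' a : List Bool) : tp (h ++ h') a = tp h (tp h' a) := by
  induction h with
  | nil => rfl
  | cons b h ih => exact congrArg (fun l => true :: b :: l) ih

theorem hs_length (S : Oracle) (v : List Bool) (i : ℕ) : (hs S v i).length = i := by
  induction i with
  | zero => rfl
  | succ i ih => exact congrArg (· + 1) ih

section

variable {p r : Bool} {k : Fin 3}

/-! ### the padding loop -/

/-- the string of the padding loop -/
def ps (a : ℕ) (q : List Bool) (i : ℕ) : List Bool :=
  List.replicate i true ++ false :: (List.replicate a true ++ false :: q)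

theorem pad_round (hO : ∀ s, O (List.replicate k.val false ++ s) = Q s)
    {L : ℕ → List Bool → ℕ} (hF : Flag0 L Q) (a : ℕ) (q : List Bool) {i : ℕ} (hi : i < L a q)
    (x : List Bool) :
    Go O 0 12 (Conv.cf (fcCode p r k) 70 (ps a q i) x) (Conv.cf (fcCode p r k) 70 (ps a q (i + 1)) x) := by
  have hQ : Q (true :: false :: false :: ps a q i) = false :=
    (hF i a q).trans (decide_eq_false (by omega))
  exact (((ask_no (code := fcCode p r k) (s1 := 70) (s2 := 71) (s3 := 72) (u1 := 73) (u2 := 74)
    (u3 := 75) (n := pe k 76 77 78) (y := pe k 82 83 84) hO rfl rfl rfl rfl rfl rfl _ x hQ).trans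
    (back (v1 := 76) (v2 := 77) (v3 := 78) (d1 := 79) (d2 := 80) (d3 := 81) rfl rfl rfl rfl rfl
      _ _ _ _ x)).trans (push (s := 81) (t := 70) (b := true) rfl _ x)).mono (by norm_num)
      (by norm_num)

theorem pad_loop (hO : ∀ s, O (List.replicate k.val false ++ s) = Q s)
    {L : ℕ → List Bool → ℕ} (hF : Flag0 L Q) (a : ℕ) (q : List Bool) (x : List Bool) :
    ∀ i ≤ L a q, Go O 0 (12 * i) (Conv.cf (fcCode p r k) 70 (ps a q 0) x)
      (Conv.cf (fcCode p r k) 70 (ps a q i) x) := by
  intro i
  induction i with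
  | zero => exact fun _ => Go.refl _
  | succ i ih => exact fun hi => (ih (by omega)).trans (pad_round hO hF a q (by omega) x)

theorem pad (hO : ∀ s, O (List.replicate k.val false ++ s) = Q s)
    {L : ℕ → List Bool → ℕ} (hF : Flag0 L Q) (a : ℕ) (q : List Bool) (x : List Bool) :
    Go O 0 (12 * L a q + 14) (Conv.cf (fcCode true r k) 0 (List.replicate a true ++ false :: q) x)
      (Conv.cf (fcCode true r k) (if r = true then 1 else 69) (false :: vn L a q) x) := by
  have hQ : Q (true :: false :: false :: ps a q (L a q)) = true :=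
    (hF (L a q) a q).trans (decide_eq_true le_rfl)
  exact ((((((push (code := fcCode true r k) (s := 0) (t := 70) (b := false) rfl _ x).trans
    (pad_loop hO hF a q x (L a q) le_rfl)).trans
    (ask_yes (code := fcCode true r k) (s1 := 70) (s2 := 71) (s3 := 72) (u1 := 73) (u2 := 74)
    (u3 := 75) (n := pe k 76 77 78) (y := pe k 82 83 84) hO rfl rfl rfl rfl rfl rfl _ x hQ)).trans
    (back (v1 := 82) (v2 := 83) (v3 := 84) (d1 := 85) (d2 := 86) (d3 := 87) rfl rfl rfl rfl rfl
      _ _ _ _ x)).trans (push (s := 87) (t := 88) (b := true) rfl _ x)).trans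
      (push (s := 88) (t := if r = true then 1 else 69) (b := false) rfl _ x)).mono
      (Nat.zero_le _) (by omega)

/-! ### the loop that asks the second component -/

theorem s_round (hO : ∀ s, O (List.replicate k.val false ++ s) = Q s)
    (hS : ∀ s, O (true :: s) = S s) {N : List Bool → ℕ} (hF : Flag1 N Q) (v : List Bool) {i : ℕ}
    (hi : i < N v) (x : List Bool) :
    Go O 0 16 (Conv.cf (fcCode p r k) 1 (tp (hs S v i) (false :: v)) x)
      (Conv.cf (fcCode p r k) 1 (tp (hs S v (i + 1)) (false :: v)) x) := by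
  have hQ : Q (true :: true :: false :: tp (hs S v i) (false :: v)) = false :=
    (hF _ v).trans (decide_eq_false (by rw [hs_length]; omega))
  have h1 := ((ask_no (code := fcCode p r k) (s1 := 1) (s2 := 2) (s3 := 3) (u1 := 4) (u2 := 5)
    (u3 := 6) (n := pe k 7 8 9) (y := pe k 19 20 21) hO rfl rfl rfl rfl rfl rfl _ x hQ).trans
    (back (v1 := 7) (v2 := 8) (v3 := 9) (d1 := 10) (d2 := 11) (d3 := 12) rfl rfl rfl rfl rfl
      _ _ _ _ x)).trans (push (s := 12) (t := 13) (b := true) rfl _ x)
  have e : tp (hs S v (i + 1)) (false :: v) =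
    true :: S (tp (hs S v i) (false :: v)) :: tp (hs S v i) (false :: v) := rfl
  rw [e]
  cases h2 : S (tp (hs S v i) (false :: v))
  · exact ((((h1.trans (no (s := 13) (t := 14) (t' := 16) rfl _ x ((hS _).trans h2))).trans
      (pop (s := 14) (t := 15) rfl _ _ x)).trans (push (s := 15) (t := 18) (b := false) rfl _ x)).trans
      (push (s := 18) (t := 1) (b := true) rfl _ x)).mono (by norm_num) (by norm_num)
  · exact ((((h1.trans (yes (s := 13) (t := 14) (t' := 16) rfl _ x ((hS _).trans h2))).trans
      (pop (s := 16) (t := 17) rfl _ _ x)).trans (push (s := 17) (t := 18) (b := true) rfl _ x)).trans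
      (push (s := 18) (t := 1) (b := true) rfl _ x)).mono (by norm_num) (by norm_num)

theorem s_loop (hO : ∀ s, O (List.replicate k.val false ++ s) = Q s)
    (hS : ∀ s, O (true :: s) = S s) {N : List Bool → ℕ} (hF : Flag1 N Q) (v x : List Bool) :
    ∀ i ≤ N v, Go O 0 (16 * i) (Conv.cf (fcCode p r k) 1 (false :: v) x)
      (Conv.cf (fcCode p r k) 1 (tp (hs S v i) (false :: v)) x) := by
  intro i
  induction i with
  | zero => exact fun _ => Go.refl _
  | succ i ih => exact fun hi => (ih (by omega)).trans (s_round hO hS hF v (by omega) x)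

theorem s_all (hO : ∀ s, O (List.replicate k.val false ++ s) = Q s)
    (hS : ∀ s, O (true :: s) = S s) {N : List Bool → ℕ} (hF : Flag1 N Q) (v x : List Bool) :
    Go O 0 (16 * N v + 11) (Conv.cf (fcCode p r k) 1 (false :: v) x)
      (Conv.cf (fcCode p r k) 24 (tp (hs S v (N v)) (false :: v)) x) := by
  have hQ : Q (true :: true :: false :: tp (hs S v (N v)) (false :: v)) = true :=
    (hF _ v).trans (decide_eq_true (by rw [hs_length]))
  exact (((s_loop hO hS hF v x (N v) le_rfl).trans
    (ask_yes (code := fcCode p r k) (s1 := 1) (s2 := 2) (s3 := 3) (u1 := 4) (u2 := 5)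
    (u3 := 6) (n := pe k 7 8 9) (y := pe k 19 20 21) hO rfl rfl rfl rfl rfl rfl _ x hQ)).trans
    (back (v1 := 19) (v2 := 20) (v3 := 21) (d1 := 22) (d2 := 23) (d3 := 24) rfl rfl rfl rfl rfl
      _ _ _ _ x)).mono (Nat.zero_le _) (by omega)

/-! ### the loop that moves the second input -/

theorem mv : ∀ w a : List Bool, Go O 0 (3 * w.length + 1) (Conv.cf (fcCode p r k) 69 a w)
    (Conv.cf (fcCode p r k) 24 (app w a) []) := by
  intro w
  induction w with
  | nil =>
    intro a
    exact (popn' (code := fcCode p r k) (s := 69) (t := 24) (t' := 66) (t'' := 67) rfl a).mono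
      (by norm_num) (by norm_num)
  | cons d w ih =>
    intro a
    cases d
    · exact ((((popf' (code := fcCode p r k) (s := 69) (t := 24) (t' := 66) (t'' := 67)
        rfl a w).trans (push (s := 66) (t := 68) (b := false) rfl _ w)).trans
        (push (s := 68) (t := 69) (b := true) rfl _ w)).trans (ih _)).mono (Nat.zero_le _)
        (by simp only [List.length_cons]; omega)
    · exact ((((popt' (code := fcCode p r k) (s := 69) (t := 24) (t' := 66) (t'' := 67)
        rfl a w).trans (push (s := 67) (t := 68) (b := true) rfl _ w)).trans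
        (push (s := 68) (t := 69) (b := true) rfl _ w)).trans (ih _)).mono (Nat.zero_le _)
        (by simp only [List.length_cons]; omega)

theorem mv0 : ∀ w a : List Bool, Go O 0 (3 * w.length + 1) (Conv.cf (fcCode false r k) 0 a w)
    (Conv.cf (fcCode false r k) 24 (app w a) []) := by
  intro w a
  match w with
  | [] => exact (popn' (code := fcCode false r k) (s := 0) (t := 24) (t' := 66) (t'' := 67)
      rfl a).mono (by norm_num) (by norm_num)
  | false :: w =>
    exact ((((popf' (code := fcCode false r k) (s := 0) (t := 24) (t' := 66) (t'' := 67)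
        rfl a w).trans (push (s := 66) (t := 68) (b := false) rfl _ w)).trans
        (push (s := 68) (t := 69) (b := true) rfl _ w)).trans (mv w _)).mono (Nat.zero_le _)
        (by simp only [List.length_cons]; omega)
  | true :: w =>
    exact ((((popt' (code := fcCode false r k) (s := 0) (t := 24) (t' := 66) (t'' := 67)
        rfl a w).trans (push (s := 67) (t := 68) (b := true) rfl _ w)).trans
        (push (s := 68) (t := 69) (b := true) rfl _ w)).trans (mv w _)).mono (Nat.zero_le _)
        (by simp only [List.length_cons]; omega)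

/-! ### the first bit name -/

theorem fill_round (hO : ∀ s, O (List.replicate k.val false ++ s) = Q s) (e : List Bool) (i : ℕ)
    (hQ : Q (true :: false :: true :: tp (List.replicate i false) (false :: e)) = false)
    (x : List Bool) :
    Go O 1 13 (Conv.cf (fcCode p r k) 25 (tp (List.replicate i false) (false :: e)) x)
      (Conv.cf (fcCode p r k) 25 (tp (List.replicate (i + 1) false) (false :: e)) x) :=
  ((((ask_no (code := fcCode p r k) (s1 := 25) (s2 := 26) (s3 := 27) (u1 := 28) (u2 := 29)
    (u3 := 30) (n := pe k 31 32 33) (y := pe k 38 39 40) hO rfl rfl rfl rfl rfl rfl _ x hQ).trans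
    (back (v1 := 31) (v2 := 32) (v3 := 33) (d1 := 34) (d2 := 35) (d3 := 36) rfl rfl rfl rfl rfl
      _ _ _ _ x)).trans (push (s := 36) (t := 37) (b := false) rfl _ x)).trans
      (push (s := 37) (t := 25) (b := true) rfl _ x)).mono (by norm_num) (by norm_num)

theorem fill_loop (hO : ∀ s, O (List.replicate k.val false ++ s) = Q s) (e : List Bool) (n : ℕ)
    (hQ : ∀ i < n, Q (true :: false :: true :: tp (List.replicate i false) (false :: e)) = false)
    (x : List Bool) : ∀ i ≤ n, Go O i (13 * i) (Conv.cf (fcCode p r k) 25 (false :: e) x)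
      (Conv.cf (fcCode p r k) 25 (tp (List.replicate i false) (false :: e)) x) := by
  intro i
  induction i with
  | zero => exact fun _ => Go.refl _
  | succ i ih => exact fun hi => (ih (by omega)).trans (fill_round hO e i (hQ i (by omega)) x)

theorem flag2_iff {J : List Bool → ℕ} (hF : Flag2 J Q) (y v : List Bool) (i : ℕ) :
    Q (true :: false :: true :: tp (List.replicate i false) (false :: tp y (false :: v))) = true ↔
      J v ≤ i := by
  rw [hF]
  constructor
  · rintro ⟨y', v', e, h⟩
    rw [(tp_inj e).2]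
    exact h
  · exact fun h => ⟨y, v, rfl, h⟩

theorem fill (hO : ∀ s, O (List.replicate k.val false ++ s) = Q s) {J : List Bool → ℕ}
    (hF : Flag2 J Q) (y v x : List Bool) :
    Go O 0 (13 * J v + 12) (Conv.cf (fcCode p r k) 24 (tp y (false :: v)) x)
      (Conv.cf (fcCode p r k) 43 (tp (un 0 (J v)) (false :: tp y (false :: v))) x) := by
  have hQ : ∀ i < J v, Q (true :: false :: true ::
      tp (List.replicate i false) (false :: tp y (false :: v))) = false := fun i hi =>
    Bool.eq_false_iff.2 fun h => absurd ((flag2_iff hF y v i).1 h) (by omega)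
  exact ((((push (code := fcCode p r k) (s := 24) (t := 25) (b := false) rfl _ x).trans
    (fill_loop hO _ (J v) hQ x (J v) le_rfl)).trans
    (ask_yes (code := fcCode p r k) (s1 := 25) (s2 := 26) (s3 := 27) (u1 := 28) (u2 := 29)
    (u3 := 30) (n := pe k 31 32 33) (y := pe k 38 39 40) hO rfl rfl rfl rfl rfl rfl _ x
    ((flag2_iff hF y v (J v)).2 le_rfl))).trans
    (back (v1 := 38) (v2 := 39) (v3 := 40) (d1 := 41) (d2 := 42) (d3 := 43) rfl rfl rfl rfl rfl
      _ _ _ _ x)).mono (Nat.zero_le _) (by omega)

/-! ### the checks -/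

theorem down : ∀ (j : ℕ) (s x : List Bool), Go O 0 (3 * j)
    (Conv.cf (fcCode p r k) 55 (tp (List.replicate j true) s) x)
    (Conv.cf (fcCode p r k) 55 s (List.replicate j true ++ x)) := by
  intro j
  induction j with
  | zero => exact fun s x => Go.refl _
  | succ j ih =>
    intro s x
    rw [← rep_cons]
    exact ((((popt (code := fcCode p r k) (s := 55) (t := 49) (t' := 62) (t'' := 56)
      rfl _ x).trans (popt (s := 56) (t := 49) (t' := 57) (t'' := 60) rfl _ x)).trans
      (push' (s := 60) (t := 55) (b := true) rfl _ x)).trans (ih s _)).mono (Nat.zero_le _)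
      (by omega)

theorem up : ∀ (j : ℕ) (s : List Bool), Go O 0 (3 * j + 1)
    (Conv.cf (fcCode p r k) 59 s (List.replicate j true))
    (Conv.cf (fcCode p r k) 43 (tp (List.replicate j true) s) []) := by
  intro j
  induction j with
  | zero =>
    intro s
    exact (popn' (code := fcCode p r k) (s := 59) (t := 43) (t' := 61) (t'' := 61) rfl s).mono
      (by norm_num) (by norm_num)
  | succ j ih =>
    intro s
    rw [← tp_rep_cons]
    exact ((((popt' (code := fcCode p r k) (s := 59) (t := 43) (t' := 61) (t'' := 61)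
      rfl s _).trans (push (s := 61) (t := 63) (b := true) rfl _ _)).trans
      (push (s := 63) (t := 59) (b := true) rfl _ _)).trans (ih _)).mono (Nat.zero_le _)
      (by omega)

theorem tp_un (j J : ℕ) (e : List Bool) : tp (un j J) e =
    tp (List.replicate j true) (tp (List.replicate (J - j) false) e) := tp_app _ _ _

theorem check_ask (hO : ∀ s, O (List.replicate k.val false ++ s) = Q s) {J : List Bool → ℕ}
    (y v : List Bool) (j : ℕ) (hQ : Q (rs J v y j) = true) (x : List Bool) :
    Go O 0 (3 * j + 11) (Conv.cf (fcCode p r k) 43 (tp (un j (J v)) (false :: tp y (false :: v))) x)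
      (Conv.cf (fcCode p r k) 55 (tp (List.replicate (J v - j) false) (false :: tp y (false :: v)))
        (List.replicate j true ++ x)) := by
  have h1 := (ask_yes (code := fcCode p r k) (s1 := 43) (s2 := 44) (s3 := 45) (u1 := 46)
    (u2 := 47) (u3 := 48) (n := 49) (y := pe k 50 51 52) hO rfl rfl rfl rfl rfl rfl _ x hQ).trans
    (back (v1 := 50) (v2 := 51) (v3 := 52) (d1 := 53) (d2 := 54) (d3 := 55) rfl rfl rfl rfl rfl
      _ _ _ _ x)
  rw [tp_un] at h1 ⊢
  exact (h1.trans (down j _ x)).mono (Nat.zero_le _) (by omega)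

theorem check_round (hO : ∀ s, O (List.replicate k.val false ++ s) = Q s) {J : List Bool → ℕ}
    (y v : List Bool) {j : ℕ} (hj : j < J v) (hQ : Q (rs J v y j) = true) :
    Go O 0 (6 * J v + 16)
      (Conv.cf (fcCode p r k) 43 (tp (un j (J v)) (false :: tp y (false :: v))) [])
      (Conv.cf (fcCode p r k) 43 (tp (un (j + 1) (J v)) (false :: tp y (false :: v))) []) := by
  have h1 := check_ask (p := p) (r := r) hO y v j hQ []
  obtain ⟨d, hd⟩ : ∃ d, J v - j = d + 1 := ⟨J v - j - 1, by omega⟩
  have hd' : J v - (j + 1) = d := by omega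
  rw [hd, List.append_nil] at h1
  rw [tp_un (j + 1), hd', ← tp_rep_cons]
  exact (((((h1.trans (popt (s := 55) (t := 49) (t' := 62) (t'' := 56) rfl _ _)).trans
    (popf (s := 56) (t := 49) (t' := 57) (t'' := 60) rfl _ _)).trans
    (push (s := 57) (t := 58) (b := true) rfl _ _)).trans
    (push (s := 58) (t := 59) (b := true) rfl _ _)).trans (up j _)).mono (Nat.zero_le _)
    (by omega)

theorem check_last (hO : ∀ s, O (List.replicate k.val false ++ s) = Q s) {J : List Bool → ℕ}
    (y v : List Bool) (hQ : Q (rs J v y (J v)) = true) :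
    Go O 0 (3 * J v + 12)
      (Conv.cf (fcCode p r k) 43 (tp (un (J v) (J v)) (false :: tp y (false :: v))) [])
      (Conv.cf (fcCode p r k) 62 (tp y (false :: v)) (List.replicate (J v) true ++ [])) := by
  have h1 := check_ask (p := p) (r := r) hO y v (J v) hQ []
  rw [Nat.sub_self] at h1
  exact (h1.trans (popf (s := 55) (t := 49) (t' := 62) (t'' := 56) rfl _ _)).mono
    (Nat.zero_le _) (by omega)

theorem check_no (hO : ∀ s, O (List.replicate k.val false ++ s) = Q s) {J : List Bool → ℕ}
    (y v : List Bool) (j : ℕ) (hQ : Q (rs J v y j) = false) (x : List Bool) :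
    Go O 0 6 (Conv.cf (fcCode p r k) 43 (tp (un j (J v)) (false :: tp y (false :: v))) x)
      (Conv.cf (fcCode p r k) 49 (List.replicate k.val false ++ rs J v y j) x) :=
  (ask_no (code := fcCode p r k) (s1 := 43) (s2 := 44) (s3 := 45) (u1 := 46)
    (u2 := 47) (u3 := 48) (n := 49) (y := pe k 50 51 52) hO rfl rfl rfl rfl rfl rfl _ x hQ).mono
    (Nat.zero_le _) le_rfl

theorem check_loop (hO : ∀ s, O (List.replicate k.val false ++ s) = Q s) {J : List Bool → ℕ}
    (y v : List Bool) : ∀ j ≤ J v, (∀ i < j, Q (rs J v y i) = true) →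
    Go O 0 (j * (6 * J v + 16))
      (Conv.cf (fcCode p r k) 43 (tp (un 0 (J v)) (false :: tp y (false :: v))) [])
      (Conv.cf (fcCode p r k) 43 (tp (un j (J v)) (false :: tp y (false :: v))) []) := by
  intro j
  induction j with
  | zero => exact fun _ _ => (Go.refl _).mono le_rfl (Nat.zero_le _)
  | succ j ih =>
    intro hj h
    exact ((ih (by omega) fun i hi => h i (by omega)).trans
      (check_round hO y v (by omega) (h j (by omega)))).mono (Nat.zero_le _)
        (Nat.succ_mul _ _).ge

/-! ### the run from the separator on -/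

theorem tail_yes (hO : ∀ s, O (List.replicate k.val false ++ s) = Q s) {J : List Bool → ℕ}
    (hF : Flag2 J Q) {y v : List Bool} (h : AllOnes J Q v y) :
    Go O 0 (16 * (J v + 2) ^ 2) (Conv.cf (fcCode p r k) 24 (tp y (false :: v)) [])
      (Conv.cf (fcCode p r k) 62 (tp y (false :: v)) (List.replicate (J v) true ++ [])) :=
  (((fill hO hF y v []).trans (check_loop hO y v (J v) le_rfl fun i hi => h i (by omega))).trans
    (check_last hO y v (h _ le_rfl))).mono (Nat.zero_le _) (by nlinarith)

theorem tail_no (hO : ∀ s, O (List.replicate k.val false ++ s) = Q s) {J : List Bool → ℕ}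
    (hF : Flag2 J Q) {y v : List Bool} (h : ¬ AllOnes J Q v y) :
    ∃ (b : ℕ) (s x : List Bool), Go O 0 b (Conv.cf (fcCode p r k) 24 (tp y (false :: v)) [])
      (Conv.cf (fcCode p r k) 49 s x) := by
  have h1 : ∃ j, j ≤ J v ∧ Q (rs J v y j) = false := by
    by_contra hc
    refine h fun j hj => ?_
    by_contra hj'
    exact hc ⟨j, hj, Bool.eq_false_iff.2 hj'⟩
  classical
  have h2 := Nat.find_spec h1
  have h3 : ∀ i < Nat.find h1, Q (rs J v y i) = true := fun i hi => by
    by_contra hc
    exact Nat.find_min h1 hi ⟨by omega, Bool.eq_false_iff.2 hc⟩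
  exact ⟨_, _, _, ((fill hO hF y v []).trans (check_loop hO y v _ h2.1 h3)).trans
    (check_no hO y v _ h2.2 [])⟩

theorem tail_loop (hO : ∀ s, O (List.replicate k.val false ++ s) = Q s) {J : List Bool → ℕ}
    (hF : Flag2 J Q) {e : List Bool} (h : ¬ ∃ y v : List Bool, e = tp y (false :: v)) (i : ℕ) :
    ∃ (b : ℕ) (s x : List Bool), Go O i b (Conv.cf (fcCode p r k) 24 e [])
      (Conv.cf (fcCode p r k) 25 s x) := by
  have hQ : ∀ j < i, Q (true :: false :: true ::
      tp (List.replicate j false) (false :: e)) = false := fun j hj =>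
    Bool.eq_false_iff.2 fun hc => by
      obtain ⟨y, v, e', -⟩ := (hF j e).1 hc
      exact h ⟨y, v, e'⟩
  exact ⟨_, _, _, ((push (code := fcCode p r k) (s := 24) (t := 25) (b := false) rfl _ []).trans
    (fill_loop hO _ i hQ [] i le_rfl)).mono (by omega) le_rfl⟩

end

end MchM

open MchM

theorem specVM : SpecVM := by
  intro J k O Q hO hF x w
  have h0 : start (fc false false k) x w = Conv.cf (fcCode false false k) 0 x w := start_mk2 _ _ _
  have h1 : Go O 0 (3 * w.length + 1) (start (fc false false k) x w)
      (Conv.cf (fcCode false false k) 24 (app w x) []) := by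
    rw [h0]
    exact mv0 w x
  constructor
  · intro T hT
    by_cases he : ∃ y v : List Bool, app w x = tp y (false :: v)
    · obtain ⟨y, v, e⟩ := he
      refine ⟨y, v, e, ?_⟩
      by_contra hc
      rw [e] at h1
      obtain ⟨b, s, z, h2⟩ := tail_no (p := false) (r := false) hO hF hc
      exact not_acc (h1.trans h2) rfl T hT
    · refine absurd hT (not_acc_loop (fun i => ?_) T)
      obtain ⟨b, s, z, h2⟩ := tail_loop (p := false) (r := false) hO hF he i
      exact ⟨_, _, (h1.trans h2).mono (by omega) le_rfl, fun hh => by cases hh⟩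
  · intro y v e h T hT
    rw [e] at h1
    have h2 : 0 < (J v + 2) ^ 2 := by positivity
    exact acc (h1.trans (tail_yes hO hF h)) rfl (by omega)

theorem specPM : SpecPM := by
  intro L J k O Q hO hF0 hF a q w
  have h0 : start (fc true false k) (List.replicate a true ++ false :: q) w =
    Conv.cf (fcCode true false k) 0 (List.replicate a true ++ false :: q) w := start_mk2 _ _ _
  have h1 : Go O 0 (12 * L a q + 14 + (3 * w.length + 1))
      (start (fc true false k) (List.replicate a true ++ false :: q) w)
      (Conv.cf (fcCode true false k) 24 (tp w.reverse (false :: vn L a q)) []) := by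
    rw [h0, ← app_tp]
    exact (pad (r := false) hO hF0 a q w).trans (mv (p := true) (r := false) w (false :: vn L a q))
  constructor
  · intro T hT
    by_contra hc
    obtain ⟨b, s, z, h2⟩ := tail_no (p := true) (r := false) hO hF hc
    exact not_acc (h1.trans h2) rfl T hT
  · intro h T hT
    refine acc (h1.trans (tail_yes hO hF h)) rfl ?_
    have h2 : (L a q + J (vn L a q) + 2) ^ 2 ≥ (J (vn L a q) + 2) ^ 2 :=
      Nat.pow_le_pow_left (by omega) 2
    have h3 : (L a q + J (vn L a q) + 2) ^ 2 ≥ (L a q + 2) ^ 2 :=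
      Nat.pow_le_pow_left (by omega) 2
    nlinarith

theorem specRED : SpecRED := by
  intro L N J k O Q S hO hS hF0 hF1 hF a q T hT
  have h0 : start (fc true true k) (List.replicate a true ++ false :: q) [] =
    Conv.cf (fcCode true true k) 0 (List.replicate a true ++ false :: q) [] := start_mk2 _ _ _
  have h1 : Go O 0 (12 * L a q + 14 + (16 * N (vn L a q) + 11))
      (start (fc true true k) (List.replicate a true ++ false :: q) [])
      (Conv.cf (fcCode true true k) 24
        (tp (hs S (vn L a q) (N (vn L a q))) (false :: vn L a q)) []) := by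
    rw [h0]
    exact (pad (r := true) hO hF0 a q []).trans (s_all (p := true) (r := true) hO hS hF1 _ [])
  constructor
  · intro hT
    by_contra hc
    obtain ⟨b, s, z, h2⟩ := tail_no (p := true) (r := true) hO hF hc
    exact not_acc (h1.trans h2) rfl T hT
  · intro h
    refine acc (h1.trans (tail_yes hO hF h)) rfl ?_
    have h2 : (L a q + N (vn L a q) + J (vn L a q) + 2) ^ 2 ≥ (J (vn L a q) + 2) ^ 2 :=
      Nat.pow_le_pow_left (by omega) 2
    have h3 : (L a q + N (vn L a q) + J (vn L a q) + 2) ^ 2 ≥ (L a q + N (vn L a q) + 2) ^ 2 :=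
      Nat.pow_le_pow_left (by omega) 2
    nlinarith

end ESY.Alg3
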