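import Pool.Agent.Lib.MP_80aaf5_lc.Alg3.Rows

/-!
# Queries, their levels, certificates
-/

namespace ESY.Alg3

open ESY ESY.Conv ESY.Few ESY.Alg2 Set

/-- level of an algebraic query -/
def el (r : List Bool) : ℕ :=
  match nums r with
  | _ :: k :: _ :: _ :: l => l.length / k - 1
  | _ => 0

/-- level of a query to the algebraic oracle -/
def al (s : List Bool) : ℕ :=
  match s with
  | [] => 0
  | false :: r => r.length
  | true :: r => el r

theorem el_le (r : List Bool) : el r ≤ r.length := by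
  unfold el
  have h := nums_length r
  split
  · rename_i x k y z l hl
    rw [hl] at h
    simp only [List.length_cons] at h
    have := Nat.div_le_self l.length k
    omega
  · exact Nat.zero_le _

theorem al_le (s : List Bool) : al s ≤ s.length := by
  match s with
  | [] => exact le_rfl
  | false :: r => exact Nat.le_succ _
  | true :: r => exact (el_le r).trans (Nat.le_succ _)

theorem ext_level {A A' : Oracle} {r : List Bool}
    (h : ∀ t : List Bool, t.length = el r → A t = A' t) : ext A r = ext A' r := by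
  unfold ext
  unfold el at h
  generalize nums r = ns at h ⊢
  rcases ns with _ | ⟨q, _ | ⟨k, _ | ⟨l, _ | ⟨j, r⟩⟩⟩⟩
  · rfl
  · rfl
  · rfl
  · rfl
  · simp only at h ⊢
    rw [ml_congr _ A A']
    intro t ht
    rw [List.length_map, List.length_range] at ht
    exact h t ht

theorem alg2_level {A A' : Oracle} {s : List Bool}
    (h : ∀ t : List Bool, t.length = al s → A t = A' t) : alg2 A s = alg2 A' s := by
  match s, h with
  | [], _ => rfl
  | false :: r, h => exact h r rfl
  | true :: r, h =>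
    change ext2 A r = ext2 A' r
    unfold ext2
    split
    · exact ext_level h
    · rfl

/-- a query: to the oracle (`false`) or to the algebraic oracle (`true`) -/
abbrev Qy : Type := Bool × List Bool

/-- level of a query -/
def ql (p : Qy) : ℕ := bif p.1 then al p.2 else p.2.length

/-- value of a query -/
noncomputable def qv (p : Qy) (A : Oracle) : Bool := lv p.1 A p.2

theorem ql_le (p : Qy) : ql p ≤ p.2.length := by
  obtain ⟨i, s⟩ := p
  cases i
  · exact le_rfl
  · exact al_le s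

theorem qv_congr {p : Qy} {A A' : Oracle}
    (h : ∀ t : List Bool, t.length = ql p → A t = A' t) : qv p A = qv p A' := by
  obtain ⟨i, s⟩ := p
  cases i
  · exact h s rfl
  · exact alg2_level h

theorem qv_aff (p : Qy) : Aff (qv p) := fun f g h => lv_sum3 p.1 f g h p.2

/-- the statement -/
def St (A : Oracle) (a : ℕ) (q : List Bool) : Prop := Tr (lv a.bodd A) a.div2 q

theorem ln_lvl (a : ℕ) (q : List Bool) : 32 * (ln a q + 1) ^ 2 < lvl (nm a q) := by
  have h1 := nn_lt_lvl (nm a q)
  have h2 := ln_le_nm a q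
  have h3 : (ln a q + 1) ^ 2 ≤ ((nm a q).length + 1) ^ 2 := Nat.pow_le_pow_left (by omega) 2
  unfold Nn at h1
  omega

theorem st_congr {A A' : Oracle} {a : ℕ} {q : List Bool}
    (h : ∀ s : List Bool, s.length < lvl (nm a q) → A s = A' s) : St A a q ↔ St A' a q := by
  refine tr_congr fun s hs => lv_congr _ fun r hr => h r ?_
  have h1 := ln_lvl a q
  have h2 : s.length ≤ 2 * ln a q := hs
  have h3 : ln a q + 1 ≤ (ln a q + 1) ^ 2 := Nat.le_self_pow (by norm_num) _
  omega

/-- certificates -/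
theorem exists_cert {A : Oracle} {a : ℕ} {q : List Bool} (h : St A a q) :
    ∃ c : Finset Qy, c.card ≤ ln a q ∧ (∀ p ∈ c, p.2.length ≤ 2 * ln a q) ∧
      ∀ A', (∀ p ∈ c, qv p A' = qv p A) → St A' a q := by
  classical
  obtain ⟨w, hw, hacc⟩ := h
  have hl := asked_card (lv a.bodd A) (nu a.div2).1 (tb a.div2 q) (start (nu a.div2).1 q w)
  have ht : tb a.div2 q < ln a q := tb_lt_stm a.div2 q
  have hx : q.length < ln a q := x_lt_stm a.div2 q
  refine ⟨(asked (lv a.bodd A) (nu a.div2).1 (tb a.div2 q)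
    (start (nu a.div2).1 q w)).toFinset.image fun s => (a.bodd, s), ?_, ?_, ?_⟩
  · refine Finset.card_image_le.trans ((List.toFinset_card_le _).trans (hl.trans ht.le))
  · intro p hp
    obtain ⟨s, hs, rfl⟩ := Finset.mem_image.1 hp
    have h1 := asked_start_len _ _ _ _ _ s (List.mem_toFinset.1 hs)
    have h2 : max q.length w.length ≤ ln a q := max_le hx.le (hw.trans ht.le)
    simp only
    omega
  · intro A' hA'
    refine ⟨w, hw, (accepts_congr (O := lv a.bodd A) (O' := lv a.bodd A') fun s hs => ?_).2 hacc⟩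
    exact hA' (a.bodd, s) (Finset.mem_image.2 ⟨s, List.mem_toFinset.2 hs, rfl⟩)

/-! ### closed sets of queries -/

/-- weight of a query -/
def wt (p : Qy) : ℕ := ql p + 1

/-- the queries of a level -/
def atl (Q : Finset Qy) (m : ℕ) : Finset Qy := Q.filter fun p => ql p = m

/-- closed sets of rows for a set of queries -/
def ClF (A : Oracle) (F : Finset Qy) (m : ℕ) (C : Set Row) : Prop :=
  Cl cell (Rm m) (fun p : {x // x ∈ F} => qv p.1) A C

/-- the full rows of the closed set are certified -/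
def Good (A : Oracle) (Q : Finset Qy) (m : ℕ) : Prop :=
  ∃ C : Set Row, C ⊆ Rm m ∧ C.Finite ∧ C.ncard ≤ (atl Q m).card ∧ ClF A (atl Q m) m C ∧
    ∀ r ∈ C, Ones cell A r → ∀ a q, r.1 = nm a q → ∀ A', (∀ p ∈ Q, qv p A' = qv p A) → St A' a q

theorem exists_C (A : Oracle) (F : Finset Qy) (m : ℕ) :
    ∃ C : Set Row, C ⊆ Rm m ∧ C.Finite ∧ C.ncard ≤ F.card ∧ ClF A F m C := by
  obtain ⟨C, -, h2, h3, h4, h5⟩ := exists_closed (cell := cell) (R := Rm m)
    (φ := fun p : {x // x ∈ F} => qv p.1) (fun p => qv_aff p.1) A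
    (Fintype.card {x // x ∈ F}) ∅ finite_empty (im_card A ∅)
  rw [empty_union] at h2
  rw [ncard_empty, zero_add, Fintype.card_coe] at h4
  exact ⟨C, h2, h3, h4, h5⟩

theorem sum_union_le {α : Type} [DecidableEq α] (s t : Finset α) (f : α → ℕ) :
    ∑ p ∈ s ∪ t, f p ≤ ∑ p ∈ s, f p + ∑ p ∈ t, f p := by
  rw [← Finset.sum_union_inter]
  exact Nat.le_add_right _ _

theorem sum_biUnion_le {α β : Type} [DecidableEq α] [DecidableEq β] (s : Finset β)
    (t : β → Finset α) (f : α → ℕ) :
    ∑ p ∈ s.biUnion t, f p ≤ ∑ i ∈ s, ∑ p ∈ t i, f p := by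
  induction s using Finset.induction_on with
  | empty => simp
  | insert b s hb ih =>
    rw [Finset.biUnion_insert, Finset.sum_insert hb]
    exact (sum_union_le _ _ _).trans (Nat.add_le_add_left ih _)

theorem closure_step {A : Oracle}
    (hA : ∀ r a q, r ∈ Rm (lvl r.1) → Ones cell A r → r.1 = nm a q → St A a q) (k : ℕ) :
    ∀ Q₀ : Finset Qy, ∃ Q, Q₀ ⊆ Q ∧ (∀ m, k ≤ m → atl Q m = atl Q₀ m) ∧
      (∀ m < k, Good A Q m) ∧
      2 * (∑ p ∈ Q, wt p) ≤ 2 * (∑ p ∈ Q₀, wt p) + ∑ p ∈ Q.filter (fun p => ql p < k), wt p := by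
  classical
  induction k with
  | zero =>
    intro Q₀
    exact ⟨Q₀, subset_rfl, fun _ _ => rfl, fun m hm => absurd hm (Nat.not_lt_zero m), by omega⟩
  | succ k ih =>
    intro Q₀
    obtain ⟨C, hC1, hC2, hC3, hC4⟩ := exists_C A (atl Q₀ k) k
    have hc : ∀ r : Row, ∃ c : Finset Qy, (r ∈ Rm k → ∀ p ∈ c, ql p < k) ∧
        (r ∈ Rm k → 2 * (∑ p ∈ c, wt p) ≤ k + 1) ∧
        (r ∈ Rm k → Ones cell A r → ∀ a q, r.1 = nm a q → ∀ A', (∀ p ∈ c, qv p A' = qv p A) →
          St A' a q) := by
      intro r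
      by_cases h : r ∈ Rm k ∧ Ones cell A r ∧ ∃ a q, r.1 = nm a q
      · obtain ⟨hr, ho, a, q, haq⟩ := h
        have hlv : lvl r.1 = k := hr.1
        obtain ⟨c, h1, h2, h3⟩ := exists_cert (hA r a q (by rw [hlv]; exact hr) ho haq)
        have h4 := ln_lvl a q
        rw [← haq, hlv] at h4
        have h5 : ln a q + 1 ≤ (ln a q + 1) ^ 2 := Nat.le_self_pow (by norm_num) _
        refine ⟨c, fun _ p hp => ?_, fun _ => ?_, fun _ _ a' q' haq' A' hA' => ?_⟩
        · have := (ql_le p).trans (h2 p hp)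
          omega
        · have h6 : ∑ p ∈ c, wt p ≤ c.card * (2 * ln a q + 1) := by
            rw [← smul_eq_mul]
            refine Finset.sum_le_card_nsmul _ _ _ fun p hp => ?_
            have := (ql_le p).trans (h2 p hp)
            unfold wt
            omega
          have h7 : c.card * (2 * ln a q + 1) ≤ ln a q * (2 * ln a q + 1) :=
            Nat.mul_le_mul_right _ h1
          have h8 : ln a q * (2 * ln a q + 1) ≤ 2 * (ln a q + 1) ^ 2 := by nlinarith
          omega
        · obtain ⟨rfl, rfl⟩ := nm_inj (haq.symm.trans haq')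
          exact h3 A' hA'
      · refine ⟨∅, fun _ p hp => absurd hp (Finset.notMem_empty p), fun _ => by simp,
          fun hr ho a q haq => absurd ⟨hr, ho, a, q, haq⟩ h⟩
    choose c hc1 hc2 hc3 using hc
    set Q₁ : Finset Qy := Q₀ ∪ hC2.toFinset.biUnion c with hQ₁
    have hmemC : ∀ r ∈ hC2.toFinset, r ∈ Rm k := fun r hr =>
      hC1 ((Set.Finite.mem_toFinset _).1 hr)
    have hat : ∀ m, k ≤ m → atl Q₁ m = atl Q₀ m := by
      intro m hm
      ext p
      simp only [atl, Finset.mem_filter, hQ₁, Finset.mem_union, Finset.mem_biUnion]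
      constructor
      · rintro ⟨h | ⟨r, hr, hp⟩, hpm⟩
        · exact ⟨h, hpm⟩
        · have := hc1 r (hmemC r hr) p hp
          omega
      · rintro ⟨h, hpm⟩
        exact ⟨Or.inl h, hpm⟩
    have hw : 2 * (∑ p ∈ Q₁, wt p) ≤ 2 * (∑ p ∈ Q₀, wt p) + ∑ p ∈ atl Q₀ k, wt p := by
      have h1 : ∑ p ∈ Q₁, wt p ≤ ∑ p ∈ Q₀, wt p + ∑ p ∈ hC2.toFinset.biUnion c, wt p := by
        rw [hQ₁, ← Finset.sum_union_inter]
        exact Nat.le_add_right _ _
      have h2 : ∑ p ∈ hC2.toFinset.biUnion c, wt p ≤ ∑ r ∈ hC2.toFinset, ∑ p ∈ c r, wt p :=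
        sum_biUnion_le _ _ _
      have h3 : 2 * ∑ r ∈ hC2.toFinset, ∑ p ∈ c r, wt p ≤ hC2.toFinset.card * (k + 1) := by
        rw [Finset.mul_sum, ← smul_eq_mul]
        exact Finset.sum_le_card_nsmul _ _ _ fun r hr => hc2 r (hmemC r hr)
      have h4 : hC2.toFinset.card ≤ (atl Q₀ k).card := by
        rw [← ncard_eq_toFinset_card C hC2]
        exact hC3
      have h5 : ∑ p ∈ atl Q₀ k, wt p = (atl Q₀ k).card * (k + 1) := by
        rw [← smul_eq_mul]
        refine Finset.sum_eq_card_nsmul fun p hp => ?_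
        unfold wt
        rw [(Finset.mem_filter.1 hp).2]
      have h6 := Nat.mul_le_mul_right (k + 1) h4
      omega
    obtain ⟨Q, h1, h2, h3, h4⟩ := ih Q₁
    have hQk : atl Q k = atl Q₀ k := (h2 k le_rfl).trans (hat k le_rfl)
    refine ⟨Q, Finset.subset_union_left.trans h1, fun m hm => (h2 m (by omega)).trans
      (hat m (by omega)), fun m hm => ?_, ?_⟩
    · rcases Nat.lt_succ_iff_lt_or_eq.1 hm with hm | rfl
      · exact h3 m hm
      · refine ⟨C, hC1, hC2, by rw [hQk]; exact hC3, by rw [hQk]; exact hC4, ?_⟩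
        intro r hr ho a q haq A' hA'
        refine hc3 r (hC1 hr) ho a q haq A' fun p hp => hA' p (h1 ?_)
        exact Finset.mem_union_right _ (Finset.mem_biUnion.2
          ⟨r, (Set.Finite.mem_toFinset _).2 hr, hp⟩)
    · have h5 : ∑ p ∈ Q.filter (fun p => ql p < k + 1), wt p =
          ∑ p ∈ Q.filter (fun p => ql p < k), wt p + ∑ p ∈ atl Q k, wt p := by
        rw [← Finset.sum_union]
        · congr 1
          ext p
          simp only [atl, Finset.mem_filter, Finset.mem_union]
          constructor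
          · rintro ⟨h, h'⟩
            rcases Nat.lt_succ_iff_lt_or_eq.1 h' with h' | h'
            · exact Or.inl ⟨h, h'⟩
            · exact Or.inr ⟨h, h'⟩
          · rintro (⟨h, h'⟩ | ⟨h, h'⟩)
            · exact ⟨h, by omega⟩
            · exact ⟨h, by omega⟩
        · rw [Finset.disjoint_left]
          intro p hp hp'
          have e1 := (Finset.mem_filter.1 hp).2
          have e2 := (Finset.mem_filter.1 hp').2
          omega
      rw [h5, hQk]
      omega

/-- **Closure.** -/
theorem exists_closure {A : Oracle}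
    (hA : ∀ r a q, r ∈ Rm (lvl r.1) → Ones cell A r → r.1 = nm a q → St A a q)
    (Q₀ : Finset Qy) : ∃ Q, Q₀ ⊆ Q ∧ (∀ m, Good A Q m) ∧
      ∀ m, (atl Q m).card ≤ 2 * ∑ p ∈ Q₀, wt p := by
  classical
  obtain ⟨Q, h1, h2, h3, h4⟩ := closure_step hA (Q₀.sup ql + 1) Q₀
  have h5 : ∑ p ∈ Q.filter (fun p => ql p < Q₀.sup ql + 1), wt p ≤ ∑ p ∈ Q, wt p :=
    Finset.sum_le_sum_of_subset (Finset.filter_subset _ _)
  refine ⟨Q, h1, fun m => ?_, fun m => ?_⟩
  · by_cases hm : m < Q₀.sup ql + 1
    · exact h3 m hm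
    · have h6 : atl Q m = ∅ := by
        rw [h2 m (by omega)]
        refine Finset.filter_eq_empty_iff.2 fun p hp hpm => ?_
        have := Finset.le_sup (f := ql) hp
        omega
      obtain ⟨C, hC1, hC2, hC3, hC4⟩ := exists_C A (atl Q m) m
      refine ⟨C, hC1, hC2, hC3, hC4, fun r hr => ?_⟩
      rw [h6, Finset.card_empty, Nat.le_zero, ncard_eq_zero hC2] at hC3
      rw [hC3] at hr
      exact absurd hr (notMem_empty r)
  · have h6 : (atl Q m).card ≤ ∑ p ∈ atl Q m, wt p := by
      rw [Finset.card_eq_sum_ones]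
      exact Finset.sum_le_sum fun p _ => Nat.succ_le_succ (Nat.zero_le _)
    have h7 : ∑ p ∈ atl Q m, wt p ≤ ∑ p ∈ Q, wt p :=
      Finset.sum_le_sum_of_subset (Finset.filter_subset _ _)
    omega

end ESY.Alg3
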