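import Pool.Agent.Lib.MP_b9add9_lc.Alg2.Tree

/-!
# Sections of affine functions: hiding full rows in junk
-/

namespace ESY.Alg3

open ESY ESY.Alg2 Set

variable {ρ ι β : Type} (cell : ρ → Set (List Bool)) (R : Set ρ) (φ : ι → Oracle → Bool)

/-- oracles that agree with `b` except in the rows of `R` outside `S` -/
def Ag (b : Oracle) (S : Set ρ) : Set Oracle :=
  {c | ∀ s, (∀ r ∈ R, r ∉ S → s ∉ cell r) → c s = b s}

/-- the values of the functions -/
def Im (b : Oracle) (S : Set ρ) : Set (ι → Bool) := (fun c i => φ i c) '' Ag cell R b S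

/-- `S` is closed: every other row is free -/
def Cl (b : Oracle) (S : Set ρ) : Prop :=
  ∀ r ∈ R, r ∉ S → Im cell R φ b (insert r S) = Im cell R φ b S

/-- change a row -/
noncomputable def patch (b : Oracle) (r : ρ) (c : Oracle) : Oracle := by
  classical
  exact fun s => if s ∈ cell r then c s else b s

variable {cell R φ}

theorem patch_in {b c : Oracle} {r : ρ} {s : List Bool} (h : s ∈ cell r) :
    patch cell b r c s = c s := by
  unfold patch
  exact if_pos h

theorem patch_out {b c : Oracle} {r : ρ} {s : List Bool} (h : s ∉ cell r) :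
    patch cell b r c s = b s := by
  unfold patch
  exact if_neg h

theorem ag_self (b : Oracle) (S : Set ρ) : b ∈ Ag cell R b S := fun _ _ => rfl

theorem ag_mono {b : Oracle} {S S' : Set ρ} (h : S ⊆ S') : Ag cell R b S' ⊆ Ag cell R b S :=
  fun _ hc s hs => hc s fun r hr hr' => hs r hr fun h' => hr' (h h')

theorem ag_trans {b b' c : Oracle} {S S' : Set ρ} (h : S ⊆ S') (hb : b' ∈ Ag cell R b S)
    (hc : c ∈ Ag cell R b' S') : c ∈ Ag cell R b S :=
  fun s hs => (ag_mono h hc s hs).trans (hb s hs)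

theorem ag_sum3 {b c₁ c₂ c₃ : Oracle} {S : Set ρ} (h₁ : c₁ ∈ Ag cell R b S)
    (h₂ : c₂ ∈ Ag cell R b S) (h₃ : c₃ ∈ Ag cell R b S) : sum3 c₁ c₂ c₃ ∈ Ag cell R b S := by
  intro s hs
  unfold sum3
  rw [h₁ s hs, h₂ s hs, h₃ s hs]
  exact x3_same _ _

theorem patch_ag {b c : Oracle} {r : ρ} {S : Set ρ} (hr : r ∈ R) (hS : r ∉ S) :
    patch cell b r c ∈ Ag cell R b S := fun _ hs => patch_out (hs r hr hS)

theorem im_mono {b : Oracle} {S S' : Set ρ} (h : S ⊆ S') :
    Im cell R φ b S' ⊆ Im cell R φ b S := image_mono (ag_mono h)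

theorem im_nonempty (b : Oracle) (S : Set ρ) : (Im cell R φ b S).Nonempty :=
  ⟨_, mem_image_of_mem _ (ag_self b S)⟩

theorem im_aff (hφ : ∀ i, Aff (φ i)) (b : Oracle) (S : Set ρ) : ∀ f ∈ Im cell R φ b S,
    ∀ g ∈ Im cell R φ b S, ∀ h ∈ Im cell R φ b S,
    (fun i => x3 (f i) (g i) (h i)) ∈ Im cell R φ b S := by
  rintro _ ⟨c₁, h₁, rfl⟩ _ ⟨c₂, h₂, rfl⟩ _ ⟨c₃, h₃, rfl⟩
  exact ⟨sum3 c₁ c₂ c₃, ag_sum3 h₁ h₂ h₃, funext fun i => hφ i _ _ _⟩

/-- the images do not depend on the base -/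
theorem im_base (hφ : ∀ i, Aff (φ i)) {b b' : Oracle} (h : ∀ i, φ i b' = φ i b) (S : Set ρ) :
    Im cell R φ b' S = Im cell R φ b S := by
  have key : ∀ b b' : Oracle, (∀ i, φ i b' = φ i b) →
      Im cell R φ b' S ⊆ Im cell R φ b S := by
    rintro b b' h _ ⟨c, hc, rfl⟩
    refine ⟨sum3 c b' b, fun s hs => ?_, funext fun i => ?_⟩
    · unfold sum3
      rw [hc s hs]
      exact x3_same' _ _
    · simp only
      rw [hφ i, h i]
      exact x3_same _ _
  exact Subset.antisymm (key _ _ h) (key _ _ fun i => (h i).symm)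

theorem cl_base (hφ : ∀ i, Aff (φ i)) {b b' : Oracle} (h : ∀ i, φ i b' = φ i b) {S : Set ρ}
    (hS : Cl cell R φ b S) : Cl cell R φ b' S := by
  intro r hr hrS
  rw [im_base hφ h, im_base hφ h]
  exact hS r hr hrS

section

variable [Fintype ι]

theorem halving' {P Q : Set (ι → Bool)} (hPQ : P ⊆ Q) (hne : P ≠ Q) (hP : P.Nonempty)
    (hPa : ∀ f ∈ P, ∀ g ∈ P, ∀ h ∈ P, (fun i => x3 (f i) (g i) (h i)) ∈ P)
    (hQa : ∀ f ∈ Q, ∀ g ∈ Q, ∀ h ∈ Q, (fun i => x3 (f i) (g i) (h i)) ∈ Q) :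
    2 * P.ncard ≤ Q.ncard := by
  obtain ⟨p₀, hp₀⟩ := hP
  obtain ⟨q₀, hq₀, hq₀'⟩ : ∃ q ∈ Q, q ∉ P := by
    by_contra hcon
    push Not at hcon
    exact hne (Subset.antisymm hPQ hcon)
  have h1 : P.ncard ≤ (Q \ P).ncard := by
    refine ncard_le_ncard_of_injOn (fun p i => x3 (p i) (p₀ i) (q₀ i)) ?_ ?_ (toFinite _)
    · intro p hp
      refine ⟨hQa p (hPQ hp) p₀ (hPQ hp₀) q₀ hq₀, fun hmem => hq₀' ?_⟩
      have h2 := hPa _ hmem p hp p₀ hp₀
      have h3 : (fun i => x3 (x3 (p i) (p₀ i) (q₀ i)) (p i) (p₀ i)) = q₀ :=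
        funext fun i => x3_cancel' _ _ _
      rwa [h3] at h2
    · intro p _ p' _ h
      funext i
      have h2 := congrFun h i
      simp only at h2
      rw [← x3_cancel (p i) (p₀ i) (q₀ i), h2, x3_cancel]
  have h2 := ncard_sdiff_add_ncard_of_subset hPQ (toFinite _)
  omega

theorem im_half (hφ : ∀ i, Aff (φ i)) {b : Oracle} {S S' : Set ρ} (h : S ⊆ S')
    (hne : Im cell R φ b S' ≠ Im cell R φ b S) {k : ℕ}
    (hk : (Im cell R φ b S).ncard ≤ 2 ^ k) :
    ∃ k', k = k' + 1 ∧ (Im cell R φ b S').ncard ≤ 2 ^ k' := by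
  have h1 := halving' (im_mono h) hne (im_nonempty b S') (im_aff hφ b S') (im_aff hφ b S)
  have h2 : 0 < (Im cell R φ b S').ncard := (ncard_pos (toFinite _)).2 (im_nonempty b S')
  rcases k with _ | k
  · rw [pow_zero] at hk
    omega
  · refine ⟨k, rfl, ?_⟩
    rw [pow_succ] at hk
    omega

theorem im_card (b : Oracle) (S : Set ρ) :
    (Im cell R φ b S).ncard ≤ 2 ^ Fintype.card ι := by
  classical
  refine (ncard_le_ncard (subset_univ _) (toFinite _)).trans ?_
  rw [ncard_univ, Nat.card_eq_fintype_card, Fintype.card_pi, Finset.prod_const,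
    Fintype.card_bool, Finset.card_univ]

/-- small closed sets exist -/
theorem exists_closed (hφ : ∀ i, Aff (φ i)) (b : Oracle) : ∀ (k : ℕ) (S : Set ρ), S.Finite →
    (Im cell R φ b S).ncard ≤ 2 ^ k → ∃ S', S ⊆ S' ∧ S' ⊆ S ∪ R ∧ S'.Finite ∧
      S'.ncard ≤ S.ncard + k ∧ Cl cell R φ b S' := by
  intro k
  induction k with
  | zero =>
    intro S hS hk
    refine ⟨S, subset_rfl, subset_union_left, hS, le_rfl, fun r hr hrS => ?_⟩
    by_contra hne
    obtain ⟨k', h, -⟩ := im_half hφ (subset_insert r S) hne hk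
    omega
  | succ k ih =>
    intro S hS hk
    by_cases hcl : Cl cell R φ b S
    · exact ⟨S, subset_rfl, subset_union_left, hS, by omega, hcl⟩
    · unfold Cl at hcl
      push Not at hcl
      obtain ⟨r, hr, hrS, hne⟩ := hcl
      obtain ⟨k', h, h'⟩ := im_half hφ (subset_insert r S) hne hk
      obtain rfl : k = k' := by omega
      obtain ⟨S', h1, h2, h3, h4, h5⟩ := ih (insert r S) (hS.insert r) h'
      rw [ncard_insert_of_notMem hrS hS] at h4
      refine ⟨S', (subset_insert r S).trans h1, h2.trans ?_, h3, by omega, h5⟩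
      intro x hx
      rcases hx with (rfl | hx) | hx
      · exact Or.inr hr
      · exact Or.inl hx
      · exact Or.inr hx

end

/-- the cells are disjoint -/
def Dj (cell : ρ → Set (List Bool)) (R : Set ρ) : Prop :=
  ∀ r ∈ R, ∀ r' ∈ R, ∀ s, s ∈ cell r → s ∈ cell r' → r = r'

theorem isolated_step (hD : Dj cell R) (hφ : ∀ i, Aff (φ i)) {b : Oracle} {S S' : Set ρ}
    (hS : Cl cell R φ b S) (hSS : S ⊆ S') {y z : ρ} (hy : y ∈ R) (hyS : y ∉ S') (hz : z ∈ R)
    (hzS : z ∉ S)
    (h : Im cell R φ b (insert z (insert y S')) = Im cell R φ b S') :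
    Im cell R φ b (insert z (insert y S)) = Im cell R φ b (insert y S) := by
  refine Subset.antisymm (im_mono (subset_insert _ _)) ?_
  rintro _ ⟨A', hA', rfl⟩
  by_cases hzS' : z ∈ S'
  · -- second case
    have h1 : (fun i => φ i A') ∈ Im cell R φ b (insert z S) := by
      rw [hS z hz hzS]
      exact ⟨A', ag_mono (subset_insert _ _) hA', rfl⟩
    obtain ⟨A₂, hA₂, hφ2⟩ := h1
    have h2 : (fun i => φ i (patch cell b y A₂)) ∈ Im cell R φ b (insert z (insert y S')) := by
      rw [h]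
      exact ⟨_, patch_ag hy hyS, rfl⟩
    obtain ⟨Q', hQ', hφQ⟩ := h2
    refine ⟨sum3 A₂ (patch cell b y A₂) Q', fun s hs => ?_, ?_⟩
    · unfold sum3
      by_cases hsy : s ∈ cell y
      · rw [patch_in hsy, hQ' s fun r hr hr' hsr => hr' (Or.inr (Or.inl
          (hD r hr y hy s hsr hsy)))]
        exact x3_same' _ _
      · rw [patch_out hsy, hA₂ s, hQ' s]
        · exact x3_same _ _
        · intro r hr hr'
          refine hs r hr fun h' => hr' ?_
          rcases h' with h' | h' | h'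
          · exact Or.inl h'
          · exact Or.inr (Or.inl h')
          · exact Or.inr (Or.inr (hSS h'))
        · intro r hr hr'
          by_cases hry : r = y
          · rw [hry]
            exact hsy
          · refine hs r hr fun h' => hr' ?_
            rcases h' with h' | h' | h'
            · exact Or.inl h'
            · exact absurd h' hry
            · exact Or.inr h'
    · funext i
      simp only
      rw [hφ i, ← congrFun hφQ i]
      exact (x3_same _ _).trans (congrFun hφ2 i)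
  · have h2 : (fun i => φ i (patch cell b z A')) ∈ Im cell R φ b (insert z (insert y S')) := by
      rw [h]
      exact ⟨_, patch_ag hz hzS', rfl⟩
    obtain ⟨Q', hQ', hφQ⟩ := h2
    refine ⟨sum3 A' (patch cell b z A') Q', fun s hs => ?_, ?_⟩
    · unfold sum3
      by_cases hsz : s ∈ cell z
      · rw [patch_in hsz, hQ' s fun r hr hr' hsr => hr' (Or.inl (hD r hr z hz s hsr hsz))]
        exact x3_same' _ _
      · rw [patch_out hsz, hA' s, hQ' s]
        · exact x3_same _ _
        · intro r hr hr'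
          refine hs r hr fun h' => hr' ?_
          rcases h' with h' | h' | h'
          · exact Or.inl h'
          · exact Or.inr (Or.inl h')
          · exact Or.inr (Or.inr (hSS h'))
        · intro r hr hr'
          by_cases hrz : r = z
          · rw [hrz]
            exact hsz
          · refine hs r hr fun h' => hr' ?_
            rcases h' with h' | h' | h'
            · exact absurd h' hrz
            · exact Or.inl h'
            · exact Or.inr h'
    · funext i
      simp only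
      rw [hφ i, ← congrFun hφQ i]
      exact x3_same _ _

/-- there are few rows that are not isolated -/
theorem isolated [Fintype ι] (hD : Dj cell R) (hφ : ∀ i, Aff (φ i)) {b : Oracle} {S : Set ρ}
    (hS : Cl cell R φ b S) : ∀ (k : ℕ) (S' : Set ρ), S ⊆ S' →
    (Im cell R φ b S').ncard ≤ 2 ^ k →
    {y | y ∈ R ∧ y ∉ S' ∧ ¬ Cl cell R φ b (insert y S)}.Finite ∧
      {y | y ∈ R ∧ y ∉ S' ∧ ¬ Cl cell R φ b (insert y S)}.ncard ≤ 2 * k := by
  intro k
  induction k with
  | zero =>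
    intro S' hSS hk
    have h0 : {y | y ∈ R ∧ y ∉ S' ∧ ¬ Cl cell R φ b (insert y S)} = ∅ := by
      rw [eq_empty_iff_forall_notMem]
      rintro y ⟨hy, hyS, hcl⟩
      unfold Cl at hcl
      push Not at hcl
      obtain ⟨z, hz, hzS, hne⟩ := hcl
      have h1 : Im cell R φ b (insert z (insert y S')) ≠ Im cell R φ b S' := fun h =>
        hne (isolated_step hD hφ hS hSS hy hyS hz (fun h' => hzS (Or.inr h')) h)
      obtain ⟨k', h, -⟩ := im_half hφ
        (show S' ⊆ insert z (insert y S') from fun x hx => Or.inr (Or.inr hx)) h1 hk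
      omega
    rw [h0]
    exact ⟨finite_empty, by simp⟩
  | succ k ih =>
    intro S' hSS hk
    by_cases hne : {y | y ∈ R ∧ y ∉ S' ∧ ¬ Cl cell R φ b (insert y S)} = ∅
    · rw [hne]
      exact ⟨finite_empty, by simp⟩
    · obtain ⟨y, hy, hyS, hcl⟩ := nonempty_iff_ne_empty.2 hne
      unfold Cl at hcl
      push Not at hcl
      obtain ⟨z, hz, hzS, hne⟩ := hcl
      have h1 : Im cell R φ b (insert z (insert y S')) ≠ Im cell R φ b S' := fun h =>
        hne (isolated_step hD hφ hS hSS hy hyS hz (fun h' => hzS (Or.inr h')) h)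
      have hsub : S' ⊆ insert z (insert y S') := fun x hx => Or.inr (Or.inr hx)
      obtain ⟨k', h, h'⟩ := im_half hφ hsub h1 hk
      obtain rfl : k = k' := by omega
      obtain ⟨h2, h3⟩ := ih _ (hSS.trans hsub) h'
      have h4 : {x | x ∈ R ∧ x ∉ S' ∧ ¬ Cl cell R φ b (insert x S)} ⊆ insert z (insert y
          {x | x ∈ R ∧ x ∉ insert z (insert y S') ∧ ¬ Cl cell R φ b (insert x S)}) := by
        rintro x ⟨hx1, hx2, hx3⟩
        by_cases hxz : x = z
        · exact Or.inl hxz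
        · by_cases hxy : x = y
          · exact Or.inr (Or.inl hxy)
          · refine Or.inr (Or.inr ⟨hx1, ?_, hx3⟩)
            rintro (h' | h' | h')
            · exact hxz h'
            · exact hxy h'
            · exact hx2 h'
      have h5 := (h2.insert y).insert z
      refine ⟨h5.subset h4, (ncard_le_ncard h4 h5).trans ?_⟩
      refine (ncard_insert_le _ _).trans ?_
      have := ncard_insert_le y {x | x ∈ R ∧ x ∉ insert z (insert y S') ∧
        ¬ Cl cell R φ b (insert x S)}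
      omega

/-- a free row can be filled -/
theorem fill (hD : Dj cell R) (hφ : ∀ i, Aff (φ i)) {b : Oracle} {S : Set ρ}
    (hS : Cl cell R φ b S) {y : ρ} (hy : y ∈ R) (hyS : y ∉ S) (κ : Oracle) :
    ∃ b' ∈ Ag cell R b S, (∀ i, φ i b' = φ i b) ∧ ∀ s ∈ cell y, b' s = κ s := by
  have h1 : (fun i => φ i (patch cell b y κ)) ∈ Im cell R φ b (insert y S) := by
    rw [hS y hy hyS]
    exact ⟨_, patch_ag hy hyS, rfl⟩
  obtain ⟨c, hc, hφc⟩ := h1
  refine ⟨sum3 (patch cell b y κ) c b, ag_sum3 (patch_ag hy hyS)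
    (ag_mono (subset_insert _ _) hc) (ag_self b S), fun i => ?_, fun s hs => ?_⟩
  · rw [hφ i, ← congrFun hφc i]
    exact x3_same' _ _
  · unfold sum3
    rw [patch_in hs, hc s fun r hr hr' hsr => hr' (Or.inl (hD r hr y hy s hsr hs))]
    exact x3_same _ _

/-- all bits of the row are `1` -/
def Ones (cell : ρ → Set (List Bool)) (c : Oracle) (r : ρ) : Prop := ∀ s ∈ cell r, c s = true

/-- **Cleaning.** -/
theorem clean (hD : Dj cell R) (hφ : ∀ i, Aff (φ i)) (hR : R.Finite)
    (hfin : ∀ r ∈ R, (cell r).Finite)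
    (hsum : ∑ r ∈ hR.toFinset, (1 / 2 : ℝ) ^ (cell r).ncard < 1) {b : Oracle} {S : Set ρ}
    (hS : Cl cell R φ b S) : ∃ b' ∈ Ag cell R b S, (∀ i, φ i b' = φ i b) ∧
      ∀ r ∈ R, r ∉ S → ¬ Ones cell b' r := by
  classical
  set H : Set Oracle := {c | c ∈ Ag cell R b S ∧ ∀ i, φ i c = φ i b} with hH
  have hbH : b ∈ H := ⟨ag_self b S, fun _ => rfl⟩
  have hHfin : H.Finite := by
    set C : Set (List Bool) := ⋃ r ∈ R, cell r with hC
    have hCfin : C.Finite := hR.biUnion hfin
    have hCt := hCfin.to_subtype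
    refine Set.Finite.of_finite_image (f := fun (c : Oracle) (s : C) => c s.1)
      (Set.toFinite _) ?_
    intro c hc c' hc' h
    funext s
    by_cases hs : s ∈ C
    · exact congrFun h ⟨s, hs⟩
    · have hs' : ∀ r ∈ R, r ∉ S → s ∉ cell r := fun r hr _ hsr =>
        hs (mem_biUnion hr hsr)
      rw [hc.1 s hs', hc'.1 s hs']
  have hHne : 0 < H.ncard := (ncard_pos hHfin).2 ⟨b, hbH⟩
  -- the count for one row
  have hrow : ∀ r ∈ R, r ∉ S →
      (({c | c ∈ H ∧ Ones cell c r}.ncard : ℕ) : ℝ) ≤ H.ncard * (1 / 2 : ℝ) ^ (cell r).ncard := by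
    intro r hr hrS
    have hcf := (hfin r hr).to_subtype
    have hft : Fintype (cell r) := Fintype.ofFinite _
    have h1 : ∀ κ : cell r → Bool, ∃ c ∈ H, ∀ s : cell r, c s.1 = κ s := by
      intro κ
      obtain ⟨c, hc1, hc2, hc3⟩ := fill hD hφ hS hr hrS
        (fun s => if h : s ∈ cell r then κ ⟨s, h⟩ else false)
      refine ⟨c, ⟨hc1, hc2⟩, fun s => ?_⟩
      rw [hc3 s.1 s.2, dif_pos s.2]
    choose f hf1 hf2 using h1
    have h2 : (univ ×ˢ {c | c ∈ H ∧ Ones cell c r} : Set ((cell r → Bool) × Oracle)).ncard ≤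
        H.ncard := by
      refine ncard_le_ncard_of_injOn
        (fun p => sum3 p.2 (f p.1) (f fun _ => true)) ?_ ?_ hHfin
      · rintro ⟨κ, c⟩ ⟨-, hc, -⟩
        refine ⟨ag_sum3 hc.1 (hf1 _).1 (hf1 _).1, fun i => ?_⟩
        rw [hφ i, hc.2 i, (hf1 _).2 i, (hf1 _).2 i]
        exact x3_same _ _
      · rintro ⟨κ, c⟩ ⟨-, hc, hc1⟩ ⟨κ', c'⟩ ⟨-, hc', hc1'⟩ h
        have h3 : κ = κ' := by
          funext s
          have h4 := congrFun h s.1
          simp only [sum3] at h4
          have e1 : c s.1 = true := hc1 s.1 s.2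
          have e2 : c' s.1 = true := hc1' s.1 s.2
          rw [hf2, hf2, hf2, e1, e2] at h4
          revert h4
          cases κ s <;> cases κ' s <;> decide
        subst h3
        have h5 : c = c' := by
          funext s
          have h4 := congrFun h s
          simp only [sum3] at h4
          rw [← x3_cancel (c s) (f κ s) (f (fun _ => true) s), h4, x3_cancel]
        rw [h5]
    rw [Set.ncard_prod, ncard_univ, Nat.card_eq_fintype_card, Fintype.card_fun,
      Fintype.card_bool] at h2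
    have h6 : (cell r).ncard = Fintype.card (cell r) := by
      rw [← Nat.card_coe_set_eq, Nat.card_eq_fintype_card]
    rw [h6]
    have h7 : ((2 : ℝ) ^ Fintype.card (cell r)) * ({c | c ∈ H ∧ Ones cell c r}.ncard : ℕ) ≤
        (H.ncard : ℝ) := by exact_mod_cast h2
    have h8 : (0 : ℝ) < 2 ^ Fintype.card (cell r) := by positivity
    rw [one_div, inv_pow, ← div_eq_mul_inv, le_div_iff₀ h8, mul_comm]
    exact h7
  by_contra hcon
  push Not at hcon
  have hcov : H ⊆ ⋃ r ∈ (hR.toFinset.filter fun r => r ∉ S), {c | c ∈ H ∧ Ones cell c r} := by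
    intro c hc
    obtain ⟨r, hr, hrS, hro⟩ := hcon c hc.1 hc.2
    exact mem_biUnion (show r ∈ ((hR.toFinset.filter fun r => r ∉ S : Finset ρ) : Set ρ) by
      simp [hr, hrS]) ⟨hc, hro⟩
  have h1 : (H.ncard : ℝ) ≤ ∑ r ∈ hR.toFinset.filter (fun r => r ∉ S),
      (({c | c ∈ H ∧ Ones cell c r}.ncard : ℕ) : ℝ) := by
    have h2 := (ncard_le_ncard hcov ((Finset.finite_toSet _).biUnion fun r _ =>
      hHfin.subset fun c hc => hc.1)).trans (Finset.set_ncard_biUnion_le _ _)
    exact_mod_cast h2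
  have h3 : ∑ r ∈ hR.toFinset.filter (fun r => r ∉ S),
      (({c | c ∈ H ∧ Ones cell c r}.ncard : ℕ) : ℝ) ≤
      ∑ r ∈ hR.toFinset, H.ncard * (1 / 2 : ℝ) ^ (cell r).ncard := by
    refine (Finset.sum_le_sum (g := fun r => H.ncard * (1 / 2 : ℝ) ^ (cell r).ncard)
      fun r hr => ?_).trans (Finset.sum_le_sum_of_subset_of_nonneg (Finset.filter_subset _ _)
      fun r _ _ => by positivity)
    rw [Finset.mem_filter, Set.Finite.mem_toFinset] at hr
    exact hrow r hr.1 hr.2
  rw [← Finset.mul_sum] at h3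
  have h4 : (0 : ℝ) < H.ncard := by exact_mod_cast hHne
  have h5 : (H.ncard : ℝ) * ∑ r ∈ hR.toFinset, (1 / 2 : ℝ) ^ (cell r).ncard < H.ncard * 1 :=
    mul_lt_mul_of_pos_left hsum h4
  linarith

/-- **Planting.** -/
theorem plants [Fintype ι] (hD : Dj cell R) (hφ : ∀ i, Aff (φ i)) (blk : ρ → β) (Z : Set ρ)
    (W : Finset β) : ∀ {b : Oracle} {S : Set ρ}, Cl cell R φ b S →
    (∀ v ∈ W, ∀ F : Set ρ, F.Finite → F.ncard ≤ 2 * Fintype.card ι →
      ∃ r ∈ R, blk r = v ∧ r ∉ S ∧ r ∉ F ∧ r ∉ Z) →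
    ∃ b' ∈ Ag cell R b S, (∀ i, φ i b' = φ i b) ∧
      ∃ P : Set ρ, (∀ r ∈ P, r ∈ R ∧ r ∉ S ∧ r ∉ Z) ∧
      Cl cell R φ b' (S ∪ P) ∧ (∀ r ∈ P, Ones cell b' r) ∧ (∀ v, v ∈ W ↔ ∃ r ∈ P, blk r = v) ∧
      ∀ r ∈ P, ∀ r' ∈ P, blk r = blk r' → r = r' := by
  classical
  induction W using Finset.induction_on with
  | empty =>
    intro b S hS _
    refine ⟨b, ag_self b S, fun _ => rfl, ∅, fun r hr => absurd hr (notMem_empty r), ?_,
      fun r hr => absurd hr (notMem_empty r), fun v => ?_, fun r hr => absurd hr (notMem_empty r)⟩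
    · rw [union_empty]
      exact hS
    · simp
  | insert v W hv ih =>
    intro b S hS hW
    obtain ⟨b', hb', hφb, P, hP1, hP2, hP3, hP4, hP5⟩ :=
      ih hS fun v' hv' => hW v' (Finset.mem_insert_of_mem hv')
    obtain ⟨hF1, hF2⟩ := isolated hD hφ hP2 _ (S ∪ P) subset_rfl (im_card b' _)
    obtain ⟨y, hy, hyv, hyS, hyF, hyZ⟩ := hW v (Finset.mem_insert_self _ _) _ hF1 hF2
    have hyP : y ∉ P := fun h => hv ((hP4 v).2 ⟨y, h, hyv⟩)
    have hySP : y ∉ S ∪ P := fun h => h.elim hyS hyP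
    have hcl : Cl cell R φ b' (insert y (S ∪ P)) := by
      by_contra hcl
      exact hyF ⟨hy, hySP, hcl⟩
    obtain ⟨b'', hb'', hφb', hones⟩ := fill hD hφ hP2 hy hySP (fun _ => true)
    refine ⟨b'', ag_trans subset_union_left hb' hb'', fun i => (hφb' i).trans (hφb i),
      insert y P, ?_, ?_, ?_, fun v' => ?_, ?_⟩
    · rintro r (rfl | hr)
      · exact ⟨hy, hyS, hyZ⟩
      · exact hP1 r hr
    · rw [union_insert]
      exact cl_base hφ hφb' hcl
    · rintro r (rfl | hr)
      · exact hones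
      · intro s hs
        rw [hb'' s fun r' hr' hr'' hs' => hr'' (Or.inr ?_)]
        · exact hP3 r hr s hs
        · rw [hD r' hr' r (hP1 r hr).1 s hs' hs]
          exact hr
    · rw [Finset.mem_insert]
      constructor
      · rintro (rfl | h)
        · exact ⟨y, Or.inl rfl, hyv⟩
        · obtain ⟨r, hr, hrv⟩ := (hP4 v').1 h
          exact ⟨r, Or.inr hr, hrv⟩
      · rintro ⟨r, rfl | hr, rfl⟩
        · exact Or.inl hyv
        · exact Or.inr ((hP4 _).2 ⟨r, hr, rfl⟩)
    · rintro r (rfl | hr) r' (rfl | hr') h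
      · rfl
      · exact absurd ((hP4 v).2 ⟨r', hr', h ▸ hyv⟩) hv
      · exact absurd ((hP4 v).2 ⟨r, hr, h.trans hyv⟩) hv
      · exact hP5 r hr r' hr' h

/-- **The section theorem.** For every finite set `W` of blocks there is an oracle with the same
values of the functions, which agrees with `b` outside the free rows, such that exactly the blocks
of `W` have a full free row, and only one, and the full free rows are not in `Z`. -/
theorem sections [Fintype ι] (hD : Dj cell R) (hφ : ∀ i, Aff (φ i)) (hR : R.Finite)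
    (hfin : ∀ r ∈ R, (cell r).Finite)
    (hsum : ∑ r ∈ hR.toFinset, (1 / 2 : ℝ) ^ (cell r).ncard < 1) (blk : ρ → β) (Z : Set ρ)
    {b : Oracle} {S : Set ρ} (hS : Cl cell R φ b S) (W : Finset β)
    (hW : ∀ v ∈ W, ∀ F : Set ρ, F.Finite → F.ncard ≤ 2 * Fintype.card ι →
      ∃ r ∈ R, blk r = v ∧ r ∉ S ∧ r ∉ F ∧ r ∉ Z) :
    ∃ b' ∈ Ag cell R b S, (∀ i, φ i b' = φ i b) ∧
      (∀ v, v ∈ W ↔ ∃ r ∈ R, r ∉ S ∧ blk r = v ∧ Ones cell b' r) ∧
      (∀ r ∈ R, r ∉ S → Ones cell b' r → r ∉ Z) ∧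
      ∀ r ∈ R, ∀ r' ∈ R, r ∉ S → r' ∉ S → Ones cell b' r → Ones cell b' r' → blk r = blk r' →
        r = r' := by
  obtain ⟨b', hb', hφb, P, hP1, hP2, hP3, hP4, hP5⟩ := plants hD hφ blk Z W hS hW
  obtain ⟨b'', hb'', hφb', hno⟩ := clean hD hφ hR hfin hsum hP2
  have hones : ∀ r ∈ P, Ones cell b'' r := by
    intro r hr s hs
    rw [hb'' s fun r' hr' hr'' hs' => hr'' (Or.inr ?_)]
    · exact hP3 r hr s hs
    · rw [hD r' hr' r (hP1 r hr).1 s hs' hs]
      exact hr
  have hP : ∀ r ∈ R, r ∉ S → Ones cell b'' r → r ∈ P := by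
    intro r hr hrS ho
    by_contra hrP
    exact hno r hr (fun h => h.elim hrS hrP) ho
  refine ⟨b'', ag_trans subset_union_left hb' hb'', fun i => (hφb' i).trans (hφb i),
    fun v => ?_, fun r hr hrS ho => (hP1 r (hP r hr hrS ho)).2.2,
    fun r hr r' hr' hrS hrS' ho ho' h => hP5 r (hP r hr hrS ho) r' (hP r' hr' hrS' ho') h⟩
  rw [hP4 v]
  constructor
  · rintro ⟨r, hr, hrv⟩
    exact ⟨r, (hP1 r hr).1, (hP1 r hr).2.1, hrv, hones r hr⟩
  · rintro ⟨r, hr, hrS, hrv, ho⟩
    exact ⟨r, hP r hr hrS ho, hrv⟩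

end ESY.Alg3
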