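import Pool.Agent.Lib.MP_80aaf5_lc.Alg3.Mch
import Pool.Agent.Lib.MP_80aaf5_lc.Alg3.Section

/-!
# Rows, blocks and levels
-/

namespace ESY.Alg3

open ESY ESY.Conv ESY.Few ESY.Alg2 Set

/-! ### names -/

/-- name of the statement with index `a` for the input `q` -/
noncomputable def nm (a : ℕ) (q : List Bool) : List Bool := vn ln a q

theorem nm_inj {a a' : ℕ} {q q' : List Bool} (h : nm a q = nm a' q') : a = a' ∧ q = q' :=
  Alg2.rep_inj (Alg2.rep_inj (List.cons.inj h).2).2

theorem ln_le_nm (a : ℕ) (q : List Bool) : ln a q ≤ (nm a q).length := by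
  unfold nm vn
  rw [List.length_cons, List.length_append, List.length_replicate]
  omega

/-- length of the row names -/
def Nn (v : List Bool) : ℕ := 8 * (v.length + 1) ^ 2

/-- number of bits minus one -/
def Jn (v : List Bool) : ℕ := Nn v + 2 * v.length + 2

/-- level of a block: length of its bit names -/
def lvl (v : List Bool) : ℕ := 2 * Jn v + 2 * Nn v + v.length + 5

theorem un_length {j J : ℕ} (h : j ≤ J) : (un j J).length = J := by
  unfold un
  rw [List.length_append, List.length_replicate, List.length_replicate]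
  omega

theorem rs_length (J : List Bool → ℕ) (v y : List Bool) {j : ℕ} (h : j ≤ J v) :
    (rs J v y j).length = 2 * J v + 2 * y.length + v.length + 5 := by
  unfold rs
  rw [List.length_cons, List.length_cons, List.length_cons, tp_length, un_length h,
    List.length_cons, tp_length, List.length_cons]
  ring

theorem un_inj {j j' J : ℕ} (hj : j ≤ J) (hj' : j' ≤ J) (h : un j J = un j' J) : j = j' := by
  have h1 : ∀ j ≤ J, (un j J).countP (fun b => b) = j := by
    intro j _
    unfold un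
    rw [List.countP_append, List.countP_replicate, List.countP_replicate]
    simp
  rw [← h1 j hj, h, h1 j' hj']

theorem rs_inj' {J : List Bool → ℕ} {v v' y y' : List Bool} {j j' : ℕ}
    (h : rs J v y j = rs J v' y' j') : v = v' ∧ y = y' ∧ un j (J v) = un j' (J v') := by
  have h1 := (List.cons.inj (List.cons.inj (List.cons.inj h).2).2).2
  obtain ⟨h2, h3⟩ := tp_inj h1
  obtain ⟨h4, h5⟩ := tp_inj h3
  exact ⟨h5, h4, h2⟩

theorem rs_inj {J : List Bool → ℕ} {v v' y y' : List Bool} {j j' : ℕ} (hj : j ≤ J v)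
    (hj' : j' ≤ J v') (h : rs J v y j = rs J v' y' j') : v = v' ∧ y = y' ∧ j = j' := by
  obtain ⟨h1, h2, h3⟩ := rs_inj' h
  subst h1
  exact ⟨rfl, h2, un_inj hj hj' h3⟩

theorem nn_ge (v : List Bool) : 8 * (v.length + 1) ≤ Nn v := by
  unfold Nn
  have h1 : v.length + 1 ≤ (v.length + 1) ^ 2 := Nat.le_self_pow (by norm_num) _
  omega

theorem lvl_le (v : List Bool) : lvl v ≤ 18 * Nn v := by
  have h := nn_ge v
  unfold lvl Jn
  omega

theorem nn_lt_lvl (v : List Bool) : 4 * Nn v < lvl v := by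
  unfold lvl Jn
  omega

/-! ### rows -/

/-- a row: a block and a name -/
abbrev Row : Type := List Bool × List Bool

/-- the bits of a row -/
def cell (r : Row) : Set (List Bool) := {s | ∃ j ≤ Jn r.1, s = rs Jn r.1 r.2 j}

/-- the rows of a level -/
def Rm (m : ℕ) : Set Row := {r | lvl r.1 = m ∧ r.2.length = Nn r.1}

/-- all bit names of rows -/
def RowBit (s : List Bool) : Prop :=
  ∃ v y j, y.length = Nn v ∧ j ≤ Jn v ∧ s = rs Jn v y j

theorem cell_length {m : ℕ} {r : Row} (hr : r ∈ Rm m) {s : List Bool} (hs : s ∈ cell r) :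
    s.length = m := by
  obtain ⟨j, hj, rfl⟩ := hs
  rw [rs_length _ _ _ hj, hr.2, ← hr.1]
  rfl

theorem cell_rowBit {m : ℕ} {r : Row} (hr : r ∈ Rm m) {s : List Bool} (hs : s ∈ cell r) :
    RowBit s := by
  obtain ⟨j, hj, rfl⟩ := hs
  exact ⟨r.1, r.2, j, hr.2, hj, rfl⟩

theorem dj (m : ℕ) : Dj cell (Rm m) := by
  rintro r - r' - s ⟨j, hj, rfl⟩ ⟨j', hj', h⟩
  obtain ⟨h1, h2, -⟩ := rs_inj hj hj' h
  exact Prod.ext h1 h2

theorem cell_eq (r : Row) : cell r = (fun j => rs Jn r.1 r.2 j) '' Iic (Jn r.1) := by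
  ext s
  constructor
  · rintro ⟨j, hj, rfl⟩
    exact ⟨j, hj, rfl⟩
  · rintro ⟨j, hj, rfl⟩
    exact ⟨j, hj, rfl⟩

theorem cell_finite (r : Row) : (cell r).Finite := by
  rw [cell_eq]
  exact (finite_Iic _).image _

theorem cell_ncard (r : Row) : (cell r).ncard = Jn r.1 + 1 := by
  rw [cell_eq, ncard_image_of_injOn]
  · rw [← Nat.card_coe_set_eq, Nat.card_eq_fintype_card, Fintype.card_ofFinset]
    simp
  · intro j hj j' hj' h
    exact (rs_inj hj hj' h).2.2

theorem rm_finite (m : ℕ) : (Rm m).Finite := by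
  refine ((List.finite_length_le Bool m).prod (List.finite_length_le Bool m)).subset ?_
  rintro ⟨v, y⟩ ⟨h1, h2⟩
  simp only at h1 h2
  unfold lvl at h1
  refine ⟨?_, ?_⟩
  · show v.length ≤ m
    omega
  · show y.length ≤ m
    omega

/-! ### the sum over the rows -/

/-- the strings of a given length -/
def emb (n : ℕ) : List.Vector Bool n ↪ List Bool := ⟨fun w => w.1, fun _ _ h => Subtype.ext h⟩

/-- the strings of a given length -/
def Ls (n : ℕ) : Finset (List Bool) := (Finset.univ : Finset (List.Vector Bool n)).map (emb n)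

theorem mem_Ls {n : ℕ} {l : List Bool} : l ∈ Ls n ↔ l.length = n := by
  unfold Ls
  rw [Finset.mem_map]
  constructor
  · rintro ⟨w, -, rfl⟩
    exact w.2
  · intro h
    exact ⟨⟨l, h⟩, Finset.mem_univ _, rfl⟩

theorem card_Ls (n : ℕ) : (Ls n).card = 2 ^ n := by
  unfold Ls
  rw [Finset.card_map, Finset.card_univ, card_vector, Fintype.card_bool]

/-- pairs -/
def emb2 : (Σ _ : List Bool, List Bool) ↪ Row := ⟨fun p => (p.1, p.2), by
  rintro ⟨a, b⟩ ⟨a', b'⟩ h
  obtain ⟨h1, h2⟩ := Prod.mk.inj h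
  simp only at h1 h2
  subst h1 h2
  rfl⟩

theorem rm_sum (m : ℕ) : ∑ r ∈ (rm_finite m).toFinset, (1 / 2 : ℝ) ^ (cell r).ncard < 1 := by
  classical
  have h1 : (rm_finite m).toFinset ⊆ (((Finset.range (m + 1)).biUnion Ls).sigma
      (fun v => Ls (Nn v))).map emb2 := by
    rintro ⟨v, y⟩ h
    obtain ⟨h2, h3⟩ := (Set.Finite.mem_toFinset _).1 h
    simp only at h2 h3
    rw [Finset.mem_map]
    refine ⟨⟨v, y⟩, ?_, rfl⟩
    rw [Finset.mem_sigma]
    refine ⟨Finset.mem_biUnion.2 ⟨v.length, ?_, mem_Ls.2 rfl⟩, mem_Ls.2 h3⟩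
    rw [Finset.mem_range]
    unfold lvl at h2
    omega
  refine (Finset.sum_le_sum_of_subset_of_nonneg h1 fun _ _ _ => by positivity).trans_lt ?_
  rw [Finset.sum_map, Finset.sum_sigma]
  have h2 : ∀ v : List Bool, ∑ y ∈ Ls (Nn v), (1 / 2 : ℝ) ^ (cell (v, y)).ncard =
      (1 / 2) ^ (2 * v.length + 3) := by
    intro v
    have h3 : ∀ y ∈ Ls (Nn v), (1 / 2 : ℝ) ^ (cell (v, y)).ncard = (1 / 2) ^ (Jn v + 1) :=
      fun y _ => by rw [cell_ncard]
    rw [Finset.sum_congr rfl h3, Finset.sum_const, card_Ls, nsmul_eq_mul]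
    unfold Jn
    rw [show Nn v + 2 * v.length + 2 + 1 = Nn v + (2 * v.length + 3) by ring, pow_add,
      ← mul_assoc]
    push_cast
    rw [← mul_pow]
    norm_num
  have h4 : ∑ x ∈ (Finset.range (m + 1)).biUnion Ls, ∑ s ∈ Ls (Nn x),
      (1 / 2 : ℝ) ^ (cell (x, s)).ncard =
      ∑ x ∈ (Finset.range (m + 1)).biUnion Ls, (1 / 2 : ℝ) ^ (2 * x.length + 3) :=
    Finset.sum_congr rfl fun v _ => h2 v
  refine lt_of_eq_of_lt h4 ?_
  rw [Finset.sum_biUnion]
  · have h5 : ∀ a ∈ Finset.range (m + 1), ∑ x ∈ Ls a, (1 / 2 : ℝ) ^ (2 * x.length + 3) =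
        (1 / 2) ^ a * (1 / 8) := by
      intro a _
      have h6 : ∀ x ∈ Ls a, (1 / 2 : ℝ) ^ (2 * x.length + 3) = (1 / 2) ^ (2 * a + 3) :=
        fun x hx => by rw [mem_Ls.1 hx]
      rw [Finset.sum_congr rfl h6, Finset.sum_const, card_Ls, nsmul_eq_mul, pow_add,
        pow_mul, ← mul_assoc]
      push_cast
      rw [← mul_pow]
      norm_num
    rw [Finset.sum_congr rfl h5, ← Finset.sum_mul]
    have h7 : ∑ i ∈ Finset.range (m + 1), (1 / 2 : ℝ) ^ i ≤ 2 := by
      have := geom_sum_eq (show (1 / 2 : ℝ) ≠ 1 by norm_num) (m + 1)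
      rw [this]
      have h8 : (0 : ℝ) < (1 / 2) ^ (m + 1) := by positivity
      rw [div_le_iff_of_neg (by norm_num)]
      linarith
    linarith
  · intro a _ b _ hab
    rw [Function.onFun, Finset.disjoint_left]
    intro x hx hx'
    exact hab ((mem_Ls.1 hx).symm.trans (mem_Ls.1 hx'))

/-- the rows with a constant name -/
def ZR : Set Row := {r | true ∉ r.2 ∨ false ∉ r.2}

/-- every block has many rows -/
theorem many_rows (v : List Bool) (S F : Set Row) (hS : S.Finite) (hF : F.Finite)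
    (h : S.ncard + F.ncard + 2 < 2 ^ Nn v) :
    ∃ r ∈ Rm (lvl v), r.1 = v ∧ r ∉ S ∧ r ∉ F ∧ r ∉ ZR := by
  classical
  by_contra hcon
  push Not at hcon
  have hrep : ∀ (b : Bool) (y : List Bool), (!b) ∉ y → y = List.replicate y.length b := by
    intro b y hy
    refine List.eq_replicate_iff.2 ⟨rfl, fun c hc => ?_⟩
    by_contra hcb
    have : c = !b := by
      cases b <;> cases c <;> simp_all
    exact hy (this ▸ hc)
  have h1 : (fun y => (v, y)) '' (Ls (Nn v) : Set (List Bool)) ⊆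
      (S ∪ F) ∪ {(v, List.replicate (Nn v) false), (v, List.replicate (Nn v) true)} := by
    rintro _ ⟨y, hy, rfl⟩
    by_contra hn
    rw [mem_union, mem_union, not_or, not_or] at hn
    have hyl : y.length = Nn v := mem_Ls.1 hy
    rcases hcon (v, y) ⟨rfl, hyl⟩ rfl hn.1.1 hn.1.2 with hz | hz
    · have h2 := hrep false y hz
      rw [hyl] at h2
      exact hn.2 (Or.inl (by rw [← h2]))
    · have h2 := hrep true y hz
      rw [hyl] at h2
      exact hn.2 (Or.inr (by rw [← h2]; rfl))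
  have h2 := (ncard_le_ncard h1 ((hS.union hF).union (toFinite _))).trans (ncard_union_le _ _)
  have h3 := ncard_union_le S F
  have h4 : ({(v, List.replicate (Nn v) false), (v, List.replicate (Nn v) true)} :
      Set Row).ncard ≤ 2 := by
    refine (ncard_insert_le _ _).trans ?_
    rw [ncard_singleton]
  rw [ncard_image_of_injective _ (fun y y' h => (Prod.mk.inj h).2), ncard_coe_finset, card_Ls] at h2
  omega

end ESY.Alg3
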